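import Mathlib

/-!
# The exchange property for Coxeter systems with all `m ≤ 3`

Mathlib has the inversion sequences but not the exchange property.  We prove it for Coxeter
matrices with entries in `{0,1,2,3}` (`0` stands for infinity) by the usual parity argument.
-/

namespace Pool.Agent.Lib.MP_31c440_gt

open List

universe u v

variable {B : Type u} {W : Type v} [Group W] {M : CoxeterMatrix B} (cs : CoxeterSystem M W)

open Classical in
/-- The parity action of a generator on `W × ZMod 2`. -/
noncomputable def act (i : B) : Function.End (W × ZMod 2) :=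
  fun x => (cs.simple i * x.1 * cs.simple i, x.2 + if x.1 = cs.simple i then 1 else 0)

open Classical in
theorem listAct (ω : List B) (x : W × ZMod 2) :
    ((ω.map (act cs)).prod : Function.End (W × ZMod 2)) x =
      (cs.wordProd ω * x.1 * (cs.wordProd ω)⁻¹, x.2 + (count x.1 (cs.rightInvSeq ω) : ZMod 2)) := by
  induction ω with
  | nil =>
    simp only [List.map_nil, List.prod_nil, cs.wordProd_nil, one_mul, inv_one, mul_one,
      cs.rightInvSeq_nil, List.count_nil, Nat.cast_zero, add_zero]
    rfl
  | cons i ω ih =>
    rw [List.map_cons, List.prod_cons]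
    change act cs i (((ω.map (act cs)).prod : Function.End (W × ZMod 2)) x) = _
    rw [ih]
    unfold act
    have h1 : cs.rightInvSeq (i :: ω) =
      ((cs.wordProd ω)⁻¹ * cs.simple i * cs.wordProd ω) :: cs.rightInvSeq ω := rfl
    rw [h1, List.count_cons]
    refine Prod.ext ?_ ?_
    · simp only [cs.wordProd_cons, mul_inv_rev, cs.inv_simple]
      group
    · simp only [Nat.cast_add, add_assoc]
      congr 2
      have h2 : (cs.wordProd ω * x.1 * (cs.wordProd ω)⁻¹ = cs.simple i) ↔
          ((cs.wordProd ω)⁻¹ * cs.simple i * cs.wordProd ω = x.1) := by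
        constructor
        · intro h; rw [← h]; group
        · intro h; rw [← h]; group
      by_cases h3 : (cs.wordProd ω)⁻¹ * cs.simple i * cs.wordProd ω = x.1
      · simp [h2.2 h3, h3]
      · simp [h3, mt h2.1 h3]

theorem ris_append (η ω : List B) :
    cs.rightInvSeq (η ++ ω) =
      (cs.rightInvSeq η).map (fun r => (cs.wordProd ω)⁻¹ * r * cs.wordProd ω) ++
        cs.rightInvSeq ω := by
  induction η with
  | nil => simp
  | cons i η ih =>
    rw [List.cons_append, CoxeterSystem.rightInvSeq, ih, CoxeterSystem.rightInvSeq,
      cs.wordProd_append]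
    simp only [List.map_cons, List.cons_append, mul_inv_rev]
    congr 1
    group

/-- The parity action respects the Coxeter relations when `M i j ≤ 3`. -/
theorem act_rel (hM : ∀ i j, M i j ≤ 3) (i j : B) : (act cs i * act cs j) ^ M i j = 1 := by
  classical
  have key : ∀ (L : List W) (t : W), ((count t (L ++ L) : ℕ) : ZMod 2) = 0 := by
    intro L t
    rw [List.count_append, Nat.cast_add]
    exact CharTwo.add_self_eq_zero _
  have h3 := hM i j
  have hpow := cs.simple_mul_simple_pow i j
  -- reduce to lists
  have main : ∀ ω : List B, cs.wordProd ω = 1 → (∃ L, cs.rightInvSeq ω = L ++ L) →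
      ((ω.map (act cs)).prod : Function.End (W × ZMod 2)) = 1 := by
    rintro ω h1 ⟨L, hL⟩
    funext x
    rw [listAct, h1, hL, key]
    simp only [one_mul, inv_one, mul_one, add_zero]
    rfl
  have hi : ∀ z, cs.simple i * (cs.simple i * z) = z := fun z =>
    cs.simple_mul_simple_cancel_left i
  have hj : ∀ z, cs.simple j * (cs.simple j * z) = z := fun z =>
    cs.simple_mul_simple_cancel_left j
  have hi' := cs.simple_mul_simple_self i
  have hj' := cs.simple_mul_simple_self j
  interval_cases hm : M i j
  · rfl
  · have h4 : cs.simple i * cs.simple j = 1 := by simpa using hpow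
    have h5 : cs.simple i = cs.simple j := by
      have h6 := mul_eq_one_iff_eq_inv.1 h4
      rwa [cs.inv_simple] at h6
    have h := main [i, j] (by simpa [cs.wordProd_cons] using hpow) ⟨[cs.simple j], by
      simp [CoxeterSystem.rightInvSeq, cs.wordProd_cons, h5]⟩
    simpa using h
  · have h4 : cs.simple i * cs.simple j * (cs.simple i * cs.simple j) = 1 := by
      rw [← pow_two]; exact hpow
    have h5 : cs.simple i * cs.simple j = cs.simple j * cs.simple i := by
      have h6 := mul_eq_one_iff_eq_inv.1 h4
      rw [mul_inv_rev, cs.inv_simple, cs.inv_simple] at h6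
      exact h6
    have h5' : ∀ z, cs.simple i * (cs.simple j * z) = cs.simple j * (cs.simple i * z) := by
      intro z; rw [← mul_assoc, h5, mul_assoc]
    have h := main [i, j, i, j] (by
      simp only [cs.wordProd_cons, cs.wordProd_nil, mul_one]
      simpa only [mul_assoc] using h4) ⟨[cs.simple j * cs.simple i * cs.simple j, cs.simple j], by
      simp only [CoxeterSystem.rightInvSeq, cs.wordProd_cons, cs.wordProd_nil, mul_one,
        mul_inv_rev, cs.inv_simple, inv_one, one_mul, List.cons_append, List.nil_append,
        mul_assoc, hj, hi', h5, h5']⟩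
    simpa [pow_succ, mul_assoc] using h
  · have h4 : cs.simple i * cs.simple j * (cs.simple i * cs.simple j) *
        (cs.simple i * cs.simple j) = 1 := by
      simpa [pow_succ, mul_assoc] using hpow
    have h5 : cs.simple i * (cs.simple j * cs.simple i) =
        cs.simple j * (cs.simple i * cs.simple j) := by
      have h6 : cs.simple i * (cs.simple j * cs.simple i) *
        (cs.simple j * (cs.simple i * cs.simple j)) = 1 := by
        simpa only [mul_assoc] using h4
      have h7 := mul_eq_one_iff_eq_inv.1 h6
      rw [mul_inv_rev, mul_inv_rev, cs.inv_simple, cs.inv_simple, mul_assoc] at h7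
      exact h7
    have h5' : ∀ z, cs.simple i * (cs.simple j * (cs.simple i * z)) =
        cs.simple j * (cs.simple i * (cs.simple j * z)) := by
      intro z
      have h6 := congrArg (· * z) h5
      simpa only [mul_assoc] using h6
    have h := main [i, j, i, j, i, j] (by
      simp only [cs.wordProd_cons, cs.wordProd_nil, mul_one]
      simpa only [mul_assoc] using h4)
      ⟨[cs.simple i, cs.simple j * cs.simple i * cs.simple j, cs.simple j], by
      simp only [CoxeterSystem.rightInvSeq, cs.wordProd_cons, cs.wordProd_nil, mul_one,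
        mul_inv_rev, cs.inv_simple, inv_one, one_mul, List.cons_append, List.nil_append,
        mul_assoc, hi, hj, hi', hj', h5, h5']⟩
    simpa [pow_succ, mul_assoc] using h

/-- The parity homomorphism. -/
noncomputable def parityHom (hM : ∀ i j, M i j ≤ 3) : W →* Function.End (W × ZMod 2) :=
  cs.lift ⟨act cs, act_rel cs hM⟩

theorem parityHom_wordProd (hM : ∀ i j, M i j ≤ 3) (ω : List B) :
    parityHom cs hM (cs.wordProd ω) = (ω.map (act cs)).prod := by
  unfold CoxeterSystem.wordProd
  rw [map_list_prod, List.map_map]
  congr 1
  apply List.map_congr_left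
  intro i _
  exact cs.lift_apply_simple (act_rel cs hM) i

open Classical in
theorem count_ris_eq (hM : ∀ i j, M i j ≤ 3) {ω ω' : List B}
    (h : cs.wordProd ω = cs.wordProd ω') (t : W) :
    ((count t (cs.rightInvSeq ω) : ℕ) : ZMod 2) = (count t (cs.rightInvSeq ω') : ZMod 2) := by
  have h1 : ((ω.map (act cs)).prod : Function.End (W × ZMod 2)) (t, 0)
      = ((ω'.map (act cs)).prod : Function.End (W × ZMod 2)) (t, 0) := by
    rw [← parityHom_wordProd cs hM, ← parityHom_wordProd cs hM, h]
  rw [listAct, listAct] at h1
  simpa using congrArg Prod.snd h1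

/-- The exchange property: if `x` is a right descent of `w = π ω` then `x` occurs in the right
inversion sequence of the (not necessarily reduced) word `ω`. -/
theorem simple_mem_ris (hM : ∀ i j, M i j ≤ 3) (ω : List B) (x : B)
    (h : cs.length (cs.wordProd ω * cs.simple x) < cs.length (cs.wordProd ω)) :
    cs.simple x ∈ cs.rightInvSeq ω := by
  classical
  obtain ⟨η, hη, hηw⟩ := cs.exists_isReduced (cs.wordProd ω * cs.simple x)
  have h1 : cs.wordProd ω = cs.wordProd (η ++ [x]) := by
    rw [cs.wordProd_append, ← hηw, cs.wordProd_singleton, cs.simple_mul_simple_cancel_right]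
  have h2 := count_ris_eq cs hM h1 (cs.simple x)
  have h3 : cs.simple x ∉ cs.rightInvSeq η := by
    intro hmem
    have h4 := (cs.isRightInversion_of_mem_rightInvSeq hη hmem).2
    rw [← hηw, cs.simple_mul_simple_cancel_right] at h4
    omega
  rw [ris_append, List.count_append] at h2
  have h4 : count (cs.simple x) ((cs.rightInvSeq η).map
      (fun r => (cs.wordProd [x])⁻¹ * r * cs.wordProd [x])) = 0 := by
    rw [List.count_eq_zero]
    intro hmem
    obtain ⟨r, hr, hrx⟩ := List.mem_map.1 hmem
    apply h3
    have h5 : r = cs.simple x := by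
      rw [cs.wordProd_singleton] at hrx
      have h6 := congrArg (fun z => cs.simple x * z * (cs.simple x)⁻¹) hrx
      simpa [mul_assoc] using h6
    rwa [← h5]
  rw [h4, cs.rightInvSeq_singleton] at h2
  by_contra hno
  rw [List.count_eq_zero.2 hno] at h2
  simp at h2

/-- Exchange in the form of erasing a letter. -/
theorem exchange (hM : ∀ i j, M i j ≤ 3) (ω : List B) (x : B)
    (h : cs.length (cs.wordProd ω * cs.simple x) < cs.length (cs.wordProd ω)) :
    ∃ k < ω.length, cs.wordProd ω * cs.simple x = cs.wordProd (ω.eraseIdx k) := by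
  have h1 := simple_mem_ris cs hM ω x h
  obtain ⟨k, hk, hk2⟩ := List.getElem_of_mem h1
  have hk' : k < ω.length := by rwa [cs.length_rightInvSeq] at hk
  refine ⟨k, hk', ?_⟩
  rw [← cs.wordProd_mul_getD_rightInvSeq ω k, List.getD_eq_getElem _ _ hk, hk2]

end Pool.Agent.Lib.MP_31c440_gt
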