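import Mathlib
import Pool.Agent.Lib.MP_31c440_gt.Exchange

/-!
# Matsumoto's theorem for Coxeter systems with `m ∈ {1,2,3}`

If elements `σ i` of a group satisfy the braid relations, then the product of the `σ i` along a
reduced word depends only on the element of the Coxeter group.
-/

namespace Pool.Agent.Lib.MP_31c440_gt

open List

universe u v w

variable {B : Type u} {W : Type v} [Group W] {M : CoxeterMatrix B} (cs : CoxeterSystem M W)

/-- The braid relations for a family `σ` in a group. -/
structure BraidFamily (M : CoxeterMatrix B) {A : Type w} [Group A] (σ : B → A) : Prop where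
  comm : ∀ i j, M i j = 2 → σ i * σ j = σ j * σ i
  braid : ∀ i j, M i j = 3 → σ i * σ j * σ i = σ j * σ i * σ j

theorem simple_comm_of_two {i j : B} (h : M i j = 2) :
    cs.simple i * cs.simple j = cs.simple j * cs.simple i := by
  have hpow := cs.simple_mul_simple_pow i j
  rw [h, pow_two] at hpow
  have h6 := mul_eq_one_iff_eq_inv.1 hpow
  rwa [mul_inv_rev, cs.inv_simple, cs.inv_simple] at h6

theorem simple_braid_of_three {i j : B} (h : M i j = 3) :
    cs.simple i * cs.simple j * cs.simple i = cs.simple j * cs.simple i * cs.simple j := by
  have hpow := cs.simple_mul_simple_pow i j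
  rw [h] at hpow
  have h6 : (cs.simple i * cs.simple j * cs.simple i) *
      (cs.simple j * cs.simple i * cs.simple j) = 1 := by
    simpa [pow_succ, mul_assoc] using hpow
  have h7 := mul_eq_one_iff_eq_inv.1 h6
  rwa [mul_inv_rev, mul_inv_rev, cs.inv_simple, cs.inv_simple, ← mul_assoc] at h7

theorem reduced_of_length {ω : List B} {w : W} (h : cs.wordProd ω = w)
    (hl : ω.length ≤ cs.length w) : cs.IsReduced ω := by
  have h1 := cs.length_wordProd_le ω
  unfold CoxeterSystem.IsReduced
  rw [h] at h1 ⊢
  omega

theorem matsumoto (h3 : ∀ i j, M i j ≤ 3) (h0 : ∀ i j, M i j ≠ 0)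
    (hinj : Function.Injective cs.simple) {A : Type w} [Group A] {σ : B → A}
    (hσ : BraidFamily M σ) :
    ∀ (n : ℕ) (ω ω' : List B), ω.length = n → cs.IsReduced ω → cs.IsReduced ω' →
      cs.wordProd ω = cs.wordProd ω' → (ω.map σ).prod = (ω'.map σ).prod := by
  intro n
  induction n with
  | zero =>
    intro ω ω' hn hω hω' h
    have h1 : ω'.length = 0 := by rw [← hω'.eq, ← h, hω.eq, hn]
    rw [List.length_eq_zero_iff.1 hn, List.length_eq_zero_iff.1 h1]
  | succ n ih =>
    intro ω ω' hn hω hω' h
    have hn' : ω'.length = n + 1 := by rw [← hω'.eq, ← h, hω.eq, hn]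
    -- words with the same last letter
    have hC : ∀ (α γ : List B) (s : B), (α ++ [s]).length = n + 1 → cs.IsReduced (α ++ [s]) →
        cs.IsReduced (γ ++ [s]) → cs.wordProd (α ++ [s]) = cs.wordProd (γ ++ [s]) →
        ((α ++ [s]).map σ).prod = ((γ ++ [s]).map σ).prod := by
      intro α γ s hl hα hγ hp
      have h1 : cs.wordProd α = cs.wordProd γ := by
        rw [cs.wordProd_append, cs.wordProd_append] at hp
        exact mul_right_cancel hp
      have h2 : cs.IsReduced α := by
        have := hα.take α.length
        simpa using this
      have h3' : cs.IsReduced γ := by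
        have := hγ.take γ.length
        simpa using this
      have h4 := ih α γ (by simpa using hl) h2 h3' h1
      rw [List.map_append, List.map_append, List.prod_append, List.prod_append, h4]
    obtain ⟨α, s, rfl⟩ : ∃ α s, ω = α ++ [s] := by
      rcases List.eq_nil_or_concat ω with h1 | ⟨α, s, h1⟩
      · rw [h1] at hn; simp at hn
      · exact ⟨α, s, by simpa using h1⟩
    obtain ⟨γ, t, rfl⟩ : ∃ γ t, ω' = γ ++ [t] := by
      rcases List.eq_nil_or_concat ω' with h1 | ⟨α, s, h1⟩
      · rw [h1] at hn'; simp at hn'
      · exact ⟨α, s, by simpa using h1⟩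
    by_cases hst : s = t
    · subst hst
      exact hC α γ s hn hω hω' h
    have hsne : cs.simple s ≠ cs.simple t := fun hh => hst (hinj hh)
    set w := cs.wordProd (α ++ [s]) with hw
    have hlw : cs.length w = n + 1 := by rw [hw, hω.eq, hn]
    have hwt : w * cs.simple t = cs.wordProd γ := by
      rw [h, cs.wordProd_append, cs.wordProd_singleton, cs.simple_mul_simple_cancel_right]
    have hws : w * cs.simple s = cs.wordProd α := by
      rw [hw, cs.wordProd_append, cs.wordProd_singleton, cs.simple_mul_simple_cancel_right]
    have hlt : cs.length (w * cs.simple t) < cs.length w := by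
      rw [hwt, hlw]
      have h1 := cs.length_wordProd_le γ
      simp only [List.length_append, List.length_singleton] at hn'
      omega
    have hls : cs.length (w * cs.simple s) < cs.length w := by
      rw [hws, hlw]
      have h1 := cs.length_wordProd_le α
      simp only [List.length_append, List.length_singleton] at hn
      omega
    obtain ⟨k, hk, hk2⟩ := exchange cs h3 (α ++ [s]) t hlt
    rw [← hw] at hk2
    have hkα : k < α.length := by
      by_contra hge
      have h1 : k = α.length := by
        simp only [List.length_append, List.length_singleton] at hk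
        omega
      rw [h1, List.eraseIdx_append_of_length_le le_rfl] at hk2
      simp only [Nat.sub_self, List.eraseIdx_cons_zero, List.append_nil] at hk2
      rw [← hws] at hk2
      exact hsne (mul_left_cancel hk2).symm
    rw [List.eraseIdx_append_of_lt_length hkα, cs.wordProd_append, cs.wordProd_singleton] at hk2
    set α' := α.eraseIdx k with hα'
    have hlα' : α'.length = n - 1 := by
      rw [hα', List.length_eraseIdx_of_lt hkα]
      simp only [List.length_append, List.length_singleton] at hn
      omega
    have hn1 : 1 ≤ n := by
      simp only [List.length_append, List.length_singleton] at hn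
      omega
    have hw2 : w = cs.wordProd α' * cs.simple s * cs.simple t := by
      rw [← hk2, cs.simple_mul_simple_cancel_right]
    have hM3 := h3 s t
    have hM0 := h0 s t
    have hM1 : M s t ≠ 1 := by
      intro hh
      exact hst ((M.off_diagonal s t).mt (by simpa using hh) |> fun h => by simpa using h)
    interval_cases hm : M s t
    · exact absurd rfl hM0
    · exact absurd rfl hM1
    · -- commuting case
      have hc := simple_comm_of_two cs hm
      have e1 : cs.wordProd (α' ++ [t] ++ [s]) = w := by
        rw [hw2, cs.wordProd_append, cs.wordProd_append, cs.wordProd_singleton,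
          cs.wordProd_singleton, mul_assoc, mul_assoc, hc]
      have e2 : cs.wordProd (α' ++ [s] ++ [t]) = w := by
        rw [hw2, cs.wordProd_append, cs.wordProd_append, cs.wordProd_singleton,
          cs.wordProd_singleton]
      have l1 : (α' ++ [t] ++ [s]).length = n + 1 := by simp [hlα']; omega
      have l2 : (α' ++ [s] ++ [t]).length = n + 1 := by simp [hlα']; omega
      have r1 := hC α (α' ++ [t]) s hn hω (reduced_of_length cs e1 (by omega)) (by rw [e1])
      have r2 := hC γ (α' ++ [s]) t hn' hω' (reduced_of_length cs e2 (by omega))
        (by rw [e2, ← h])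
      rw [r1, r2]
      simp only [List.map_append, List.prod_append, List.map_cons, List.map_nil,
        List.prod_singleton, mul_assoc, hσ.comm s t hm]
    · -- braid case
      have hb := simple_braid_of_three cs hm
      have e0 : cs.wordProd ((α' ++ [s]) ++ [t]) = w := by
        rw [hw2, cs.wordProd_append, cs.wordProd_append, cs.wordProd_singleton,
          cs.wordProd_singleton]
      obtain ⟨j, hj, hj2⟩ := exchange cs h3 ((α' ++ [s]) ++ [t]) s (by rw [e0]; exact hls)
      rw [e0] at hj2
      have hj1 : j < (α' ++ [s]).length := by
        by_contra hge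
        have h1 : j = (α' ++ [s]).length := by
          simp only [List.length_append, List.length_singleton] at hj hge ⊢
          omega
        rw [h1, List.eraseIdx_append_of_length_le le_rfl] at hj2
        simp only [Nat.sub_self, List.eraseIdx_cons_zero, List.append_nil] at hj2
        rw [cs.wordProd_append, cs.wordProd_singleton, ← hk2] at hj2
        exact hsne (mul_left_cancel hj2)
      rw [List.eraseIdx_append_of_lt_length hj1, cs.wordProd_append, cs.wordProd_singleton] at hj2
      have hj3 : j < α'.length := by
        by_contra hge
        have h1 : j = α'.length := by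
          simp only [List.length_append, List.length_singleton] at hj1
          omega
        rw [h1, List.eraseIdx_append_of_length_le le_rfl] at hj2
        simp only [Nat.sub_self, List.eraseIdx_cons_zero, List.append_nil] at hj2
        rw [hw2, mul_assoc, mul_assoc] at hj2
        have h2 := mul_left_cancel hj2
        rw [← mul_assoc, hb, mul_assoc] at h2
        have h4 : cs.simple s * cs.simple t = 1 := by
          have h5 : cs.simple t * (cs.simple s * cs.simple t) = cs.simple t * 1 := by
            rw [h2, mul_one]
          exact mul_left_cancel h5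
        have h5 := mul_eq_one_iff_eq_inv.1 h4
        rw [cs.inv_simple] at h5
        exact hsne h5
      rw [List.eraseIdx_append_of_lt_length hj3, cs.wordProd_append, cs.wordProd_singleton] at hj2
      set α'' := α'.eraseIdx j with hα''
      have hlα'' : α''.length + 2 = n := by
        rw [hα'', List.length_eraseIdx_of_lt hj3]
        omega
      have hw3 : w = cs.wordProd α'' * cs.simple s * cs.simple t * cs.simple s := by
        rw [← hj2, cs.simple_mul_simple_cancel_right]
      have e1 : cs.wordProd (α'' ++ [s] ++ [t] ++ [s]) = w := by
        rw [hw3]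
        simp only [cs.wordProd_append, cs.wordProd_singleton]
      have e2 : cs.wordProd (α'' ++ [t] ++ [s] ++ [t]) = w := by
        rw [hw3]
        simp only [cs.wordProd_append, cs.wordProd_singleton, mul_assoc] at hb ⊢
        rw [hb]
      have l1 : (α'' ++ [s] ++ [t] ++ [s]).length = n + 1 := by simp; omega
      have l2 : (α'' ++ [t] ++ [s] ++ [t]).length = n + 1 := by simp; omega
      have r1 := hC α (α'' ++ [s] ++ [t]) s hn hω (reduced_of_length cs e1 (by omega))
        (by rw [e1])
      have r2 := hC γ (α'' ++ [t] ++ [s]) t hn' hω' (reduced_of_length cs e2 (by omega))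
        (by rw [e2, ← h])
      rw [r1, r2]
      have hb' := hσ.braid s t hm
      simp only [List.map_append, List.prod_append, List.map_cons, List.map_nil,
        List.prod_singleton, mul_assoc] at hb' ⊢
      rw [hb']

/-- The section `W → A` given by reduced words. -/
noncomputable def matSec {A : Type w} [Group A] (σ : B → A) (w : W) : A :=
  ((cs.exists_isReduced w).choose.map σ).prod

theorem matSec_wordProd (h3 : ∀ i j, M i j ≤ 3) (h0 : ∀ i j, M i j ≠ 0)
    (hinj : Function.Injective cs.simple) {A : Type w} [Group A] {σ : B → A}
    (hσ : BraidFamily M σ) {ω : List B} (hω : cs.IsReduced ω) :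
    matSec cs σ (cs.wordProd ω) = (ω.map σ).prod := by
  have h := (cs.exists_isReduced (cs.wordProd ω)).choose_spec
  exact matsumoto cs h3 h0 hinj hσ _ _ ω rfl h.1 hω h.2.symm

theorem matSec_mul_right (h3 : ∀ i j, M i j ≤ 3) (h0 : ∀ i j, M i j ≠ 0)
    (hinj : Function.Injective cs.simple) {A : Type w} [Group A] {σ : B → A}
    (hσ : BraidFamily M σ) (w : W) (i : B) (hlt : cs.length w < cs.length (w * cs.simple i)) :
    matSec cs σ (w * cs.simple i) = matSec cs σ w * σ i := by
  obtain ⟨ω, hω, rfl⟩ := cs.exists_isReduced w
  have h1 : cs.IsReduced (ω ++ [i]) := by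
    refine reduced_of_length cs (w := cs.wordProd ω * cs.simple i)
      (by rw [cs.wordProd_append, cs.wordProd_singleton]) ?_
    rw [hω.eq] at hlt
    simp only [List.length_append, List.length_singleton]
    omega
  have h2 := matSec_wordProd cs h3 h0 hinj hσ h1
  rw [cs.wordProd_append, cs.wordProd_singleton] at h2
  rw [h2, matSec_wordProd cs h3 h0 hinj hσ hω]
  simp

theorem matSec_mul_left (h3 : ∀ i j, M i j ≤ 3) (h0 : ∀ i j, M i j ≠ 0)
    (hinj : Function.Injective cs.simple) {A : Type w} [Group A] {σ : B → A}
    (hσ : BraidFamily M σ) (w : W) (i : B) (hlt : cs.length w < cs.length (cs.simple i * w)) :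
    matSec cs σ (cs.simple i * w) = σ i * matSec cs σ w := by
  obtain ⟨ω, hω, rfl⟩ := cs.exists_isReduced w
  have h1 : cs.IsReduced (i :: ω) := by
    refine reduced_of_length cs (w := cs.simple i * cs.wordProd ω)
      (by rw [cs.wordProd_cons]) ?_
    rw [hω.eq] at hlt
    simp only [List.length_cons]
    omega
  have h2 := matSec_wordProd cs h3 h0 hinj hσ h1
  rw [cs.wordProd_cons] at h2
  rw [h2, matSec_wordProd cs h3 h0 hinj hσ hω]
  simp

/-- If `u` conjugates the simple reflection `i` to the simple reflection `j` then its section
conjugates `σ i` to `σ j`. -/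
theorem matSec_conj (h3 : ∀ i j, M i j ≤ 3) (h0 : ∀ i j, M i j ≠ 0)
    (hinj : Function.Injective cs.simple) {A : Type w} [Group A] {σ : B → A}
    (hσ : BraidFamily M σ) (u : W) (i j : B) (h : u * cs.simple i = cs.simple j * u) :
    matSec cs σ u * σ i = σ j * matSec cs σ u := by
  rcases cs.length_mul_simple u i with hl | hl
  · rw [← matSec_mul_right cs h3 h0 hinj hσ u i (by omega), h,
      matSec_mul_left cs h3 h0 hinj hσ u j (by rw [← h]; omega)]
  · -- `u' = u s_i` is shorter
    set u' := u * cs.simple i with hu'
    have hu : u = u' * cs.simple i := by rw [hu', cs.simple_mul_simple_cancel_right]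
    have hu2 : u = cs.simple j * u' := by rw [h, cs.simple_mul_simple_cancel_left]
    have e1 : matSec cs σ u = matSec cs σ u' * σ i := by
      conv_lhs => rw [hu]
      exact matSec_mul_right cs h3 h0 hinj hσ u' i (by rw [← hu]; omega)
    have e2 : matSec cs σ u = σ j * matSec cs σ u' := by
      conv_lhs => rw [hu2]
      exact matSec_mul_left cs h3 h0 hinj hσ u' j (by rw [← hu2]; omega)
    calc matSec cs σ u * σ i = σ j * matSec cs σ u' * σ i := by rw [e2]
      _ = σ j * matSec cs σ u := by rw [e1, mul_assoc]

end Pool.Agent.Lib.MP_31c440_gt
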