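import Mathlib
import Pool.Agent.Lib.MP_31c440_gt.Matsumoto

/-!
# Minimal coset representatives (Deodhar's lemma) for Coxeter systems with `m ≤ 3`
-/

namespace Pool.Agent.Lib.MP_31c440_gt

open List

universe u v w

variable {B : Type u} {W : Type v} [Group W] {M : CoxeterMatrix B} (cs : CoxeterSystem M W)

/-- The standard parabolic subgroup generated by the simple reflections in `X`. -/
def WX (X : Set B) : Subgroup W := Subgroup.closure (cs.simple '' X)

/-- Elements of minimal length in their coset `v W_X`. -/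
def MinRep (X : Set B) (v : W) : Prop := ∀ u ∈ WX cs X, cs.length v ≤ cs.length (v * u)

theorem one_minRep (X : Set B) : MinRep cs X 1 := by
  intro u _
  rw [cs.length_one]
  exact Nat.zero_le _

theorem wordProd_mem {X : Set B} {ω : List B} (hω : ∀ i ∈ ω, i ∈ X) :
    cs.wordProd ω ∈ WX cs X := by
  induction ω with
  | nil => rw [cs.wordProd_nil]; exact Subgroup.one_mem _
  | cons i ω ih =>
    rw [cs.wordProd_cons]
    refine Subgroup.mul_mem _ (Subgroup.subset_closure ⟨i, hω i (by simp), rfl⟩) (ih ?_)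
    intro j hj
    exact hω j (by simp [hj])

theorem exists_word {X : Set B} {u : W} (hu : u ∈ WX cs X) :
    ∃ ω : List B, (∀ i ∈ ω, i ∈ X) ∧ cs.wordProd ω = u := by
  induction hu using Subgroup.closure_induction with
  | mem x hx =>
    obtain ⟨i, hi, rfl⟩ := hx
    exact ⟨[i], by simpa using hi, by simp⟩
  | one => exact ⟨[], by simp, by simp⟩
  | mul x y _ _ hx hy =>
    obtain ⟨ω, h1, h2⟩ := hx
    obtain ⟨η, h3, h4⟩ := hy
    refine ⟨ω ++ η, ?_, by rw [cs.wordProd_append, h2, h4]⟩
    intro i hi
    rcases List.mem_append.1 hi with h | h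
    · exact h1 i h
    · exact h3 i h
  | inv x _ hx =>
    obtain ⟨ω, h1, h2⟩ := hx
    exact ⟨ω.reverse, by simpa using h1, by rw [cs.wordProd_reverse, h2]⟩

/-- A word in `X` of minimal length among the words in `X` with the same product. -/
def XMin (X : Set B) (ω : List B) : Prop :=
  (∀ i ∈ ω, i ∈ X) ∧ ∀ ω' : List B, (∀ i ∈ ω', i ∈ X) → cs.wordProd ω' = cs.wordProd ω →
    ω.length ≤ ω'.length

theorem exists_xmin {X : Set B} {u : W} (hu : u ∈ WX cs X) :
    ∃ ω : List B, XMin cs X ω ∧ cs.wordProd ω = u := by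
  classical
  have h : ∃ n, ∃ ω : List B, ω.length = n ∧ (∀ i ∈ ω, i ∈ X) ∧ cs.wordProd ω = u := by
    obtain ⟨ω, h1, h2⟩ := exists_word cs hu
    exact ⟨_, ω, rfl, h1, h2⟩
  obtain ⟨ω, h1, h2, h3⟩ := Nat.find_spec h
  refine ⟨ω, ⟨h2, ?_⟩, h3⟩
  intro ω' h4 h5
  rw [h1]
  exact Nat.find_min' h ⟨ω', rfl, h4, by rw [h5, h3]⟩

theorem XMin.init {X : Set B} {ω : List B} {x : B} (h : XMin cs X (ω ++ [x])) : XMin cs X ω := by
  refine ⟨fun i hi => h.1 i (List.mem_append_left _ hi), ?_⟩
  intro ω' h1 h2
  have h3 := h.2 (ω' ++ [x]) (by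
    intro i hi
    rcases List.mem_append.1 hi with h4 | h4
    · exact h1 i h4
    · exact h.1 i (List.mem_append_right _ h4)) (by
      rw [cs.wordProd_append, cs.wordProd_append, h2])
  simpa using h3

/-- If no reflection in the inversion sequence of `η` lies in `W_X` then lengths add. -/
theorem length_add_of_ris (h3 : ∀ i j, M i j ≤ 3) {X : Set B} (η : List B)
    (hη : ∀ r ∈ cs.rightInvSeq η, r ∉ WX cs X) (ω : List B) (hω : XMin cs X ω) :
    cs.length (cs.wordProd η * cs.wordProd ω) = cs.length (cs.wordProd η) + ω.length := by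
  induction ω using List.reverseRecOn with
  | nil => simp
  | append_singleton ω x ih =>
    have hω' : XMin cs X ω := XMin.init cs hω
    have ih' := ih hω'
    have hx : x ∈ X := hω.1 x (by simp)
    have e1 : cs.wordProd η * cs.wordProd (ω ++ [x]) =
        cs.wordProd (η ++ ω) * cs.simple x := by
      rw [cs.wordProd_append, cs.wordProd_append, cs.wordProd_singleton, mul_assoc]
    rw [e1]
    rcases cs.length_mul_simple (cs.wordProd (η ++ ω)) x with hl | hl
    · rw [hl, cs.wordProd_append, ih']
      simp only [List.length_append, List.length_singleton]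
      omega
    · exfalso
      have h4 := simple_mem_ris cs h3 (η ++ ω) x (by omega)
      rw [ris_append] at h4
      rcases List.mem_append.1 h4 with h5 | h5
      · obtain ⟨r, hr, hrx⟩ := List.mem_map.1 h5
        apply hη r hr
        have h6 : r = cs.wordProd ω * cs.simple x * (cs.wordProd ω)⁻¹ := by
          rw [← hrx]; group
        rw [h6]
        have h7 := wordProd_mem cs hω'.1
        exact Subgroup.mul_mem _ (Subgroup.mul_mem _ h7
          (Subgroup.subset_closure ⟨x, hx, rfl⟩)) (Subgroup.inv_mem _ h7)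
      · obtain ⟨k, hk, hk2⟩ := List.getElem_of_mem h5
        have hk' : k < ω.length := by rwa [cs.length_rightInvSeq] at hk
        have h6 := cs.wordProd_mul_getD_rightInvSeq ω k
        rw [List.getD_eq_getElem _ _ hk, hk2] at h6
        have h7 := hω.2 (ω.eraseIdx k) (by
          intro i hi
          exact hω'.1 i (List.mem_of_mem_eraseIdx hi)) (by
            rw [← h6, cs.wordProd_append, cs.wordProd_singleton])
        rw [List.length_eraseIdx_of_lt hk'] at h7
        simp only [List.length_append, List.length_singleton] at h7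
        omega

theorem ris_not_mem {X : Set B} {v : W} (hv : MinRep cs X v) {η : List B}
    (hη : cs.IsReduced η) (hηv : v = cs.wordProd η) : ∀ r ∈ cs.rightInvSeq η, r ∉ WX cs X := by
  intro r hr hrX
  have h1 := (cs.isRightInversion_of_mem_rightInvSeq hη hr).2
  rw [← hηv] at h1
  have h2 := hv r hrX
  omega

theorem minRep_length (h3 : ∀ i j, M i j ≤ 3) {X : Set B} {v : W} (hv : MinRep cs X v)
    (ω : List B) (hω : XMin cs X ω) :
    cs.length (v * cs.wordProd ω) = cs.length v + ω.length := by
  obtain ⟨η, hη, hηv⟩ := cs.exists_isReduced v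
  have h := length_add_of_ris cs h3 η (ris_not_mem cs hv hη hηv) ω hω
  rwa [← hηv] at h

/-- Uniqueness of the minimal coset representative. -/
theorem minRep_unique (h3 : ∀ i j, M i j ≤ 3) {X : Set B} {v u : W} (hv : MinRep cs X v)
    (hu : u ∈ WX cs X) (hvu : MinRep cs X (v * u)) : u = 1 := by
  obtain ⟨ω, hω, rfl⟩ := exists_xmin cs hu
  have h1 := minRep_length cs h3 hv ω hω
  have h2 := hvu (cs.wordProd ω)⁻¹ (Subgroup.inv_mem _ hu)
  rw [mul_inv_cancel_right, h1] at h2
  have h4 : ω.length = 0 := by omega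
  rw [List.length_eq_zero_iff.1 h4, cs.wordProd_nil]

/-- Deodhar's lemma. -/
theorem deodhar (h3 : ∀ i j, M i j ≤ 3) {X : Set B} {v : W} (hv : MinRep cs X v) (i : B) :
    MinRep cs X (cs.simple i * v) ∨ ∃ x ∈ X, cs.simple i * v = v * cs.simple x := by
  obtain ⟨η, hη, hηv⟩ := cs.exists_isReduced v
  by_cases hmem : v⁻¹ * cs.simple i * v ∈ WX cs X
  · right
    obtain ⟨ω, hω, hωr⟩ := exists_xmin cs hmem
    have h1 := minRep_length cs h3 hv ω hω
    rw [hωr] at h1
    have h2 : v * (v⁻¹ * cs.simple i * v) = cs.simple i * v := by group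
    rw [h2] at h1
    have h4 : cs.length (cs.simple i * v) ≤ cs.length v + 1 := by
      rcases cs.length_simple_mul v i with h | h <;> omega
    have h5 : ω.length ≤ 1 := by omega
    rcases Nat.lt_or_ge ω.length 1 with h6 | h6
    · exfalso
      have h7 : ω = [] := List.length_eq_zero_iff.1 (by omega)
      rw [h7, cs.wordProd_nil] at hωr
      have h8 : cs.simple i = 1 := by
        have h9 := congrArg (fun z => v * z * v⁻¹) hωr
        simp only [mul_one, mul_inv_cancel] at h9
        rw [h9]; group
      have h9 := cs.length_simple i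
      rw [h8, cs.length_one] at h9
      omega
    · obtain ⟨x, rfl⟩ := List.length_eq_one_iff.1 (le_antisymm h5 h6)
      refine ⟨x, hω.1 x (by simp), ?_⟩
      rw [cs.wordProd_singleton] at hωr
      rw [hωr, h2]
  · left
    intro u hu
    obtain ⟨ω, hω, rfl⟩ := exists_xmin cs hu
    have h1 : ∀ r ∈ cs.rightInvSeq (i :: η), r ∉ WX cs X := by
      intro r hr
      rw [CoxeterSystem.rightInvSeq] at hr
      rcases List.mem_cons.1 hr with h | h
      · rw [h, ← hηv]; exact hmem
      · exact ris_not_mem cs hv hη hηv r h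
    have h2 := length_add_of_ris cs h3 (i :: η) h1 ω hω
    rw [cs.wordProd_cons, ← hηv] at h2
    omega

theorem not_minRep_of_loop (h3 : ∀ i j, M i j ≤ 3) {X : Set B} {v : W} (hv : MinRep cs X v)
    {i x : B} (hx : x ∈ X) (h : cs.simple i * v = v * cs.simple x) :
    ¬ MinRep cs X (cs.simple i * v) := by
  intro h1
  rw [h] at h1
  have h2 := minRep_unique cs h3 hv (Subgroup.subset_closure ⟨x, hx, rfl⟩) h1
  have h4 := cs.length_simple x
  rw [h2, cs.length_one] at h4
  omega

end Pool.Agent.Lib.MP_31c440_gt
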