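import Mathlib
import Pool.Agent.Lib.MP_31c440_gt.Parabolic

/-!
# The action of an Artin group of small type on (minimal representatives) × (parabolic group)
-/

namespace Pool.Agent.Lib.MP_31c440_gt

universe u v w x

variable {S : Type u} {W : Type v} [Group W] {M : CoxeterMatrix S} (cs : CoxeterSystem M W)
variable {J : Type x} (ι : J → S) {A : Type w} [Group A] (σ : J → A)

/-- The generator `s` fixes the coset of `v`, via a simple reflection of the parabolic. -/
def Loop (s : S) (v : W) : Prop := ∃ j : J, cs.simple s * v = v * cs.simple (ι j)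

/-- The states: minimal coset representatives. -/
def State := {v : W // MinRep cs (Set.range ι) v}

/-- The hypotheses under which we work. -/
structure Good : Prop where
  h3 : ∀ i j, M i j ≤ 3
  hinj : Function.Injective cs.simple
  hι : Function.Injective ι
  hcomm : ∀ i j : J, i ≠ j → cs.simple (ι i) * cs.simple (ι j) =
    cs.simple (ι j) * cs.simple (ι i) → σ i * σ j = σ j * σ i
  hbraid : ∀ i j : J, i ≠ j → cs.simple (ι i) * cs.simple (ι j) * cs.simple (ι i) =
    cs.simple (ι j) * cs.simple (ι i) * cs.simple (ι j) → σ i * σ j * σ i = σ j * σ i * σ j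

variable {cs ι σ}

theorem move_minRep (h3 : ∀ i j, M i j ≤ 3) {s : S} {v : W}
    (hv : MinRep cs (Set.range ι) v) (hL : ¬ Loop cs ι s v) :
    MinRep cs (Set.range ι) (cs.simple s * v) := by
  rcases deodhar cs h3 hv s with h | ⟨x, ⟨j, rfl⟩, h⟩
  · exact h
  · exact absurd ⟨j, h⟩ hL

theorem simple_ne_one (s : S) : cs.simple s ≠ 1 := by
  intro h
  have h4 := cs.length_simple s
  rw [h, cs.length_one] at h4
  omega

/-- `H0`: moving back along the same generator is again a move. -/
theorem not_loop_back {s : S} {v : W} (hL : ¬ Loop cs ι s v) :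
    ¬ Loop cs ι s (cs.simple s * v) := by
  rintro ⟨j, hj⟩
  apply hL
  refine ⟨j, ?_⟩
  rw [cs.simple_mul_simple_cancel_left] at hj
  have h1 := congrArg (· * cs.simple (ι j)) hj
  simp only [cs.simple_mul_simple_cancel_right] at h1
  exact h1.symm

theorem label_mem (j : J) : cs.simple (ι j) ∈ WX cs (Set.range ι) :=
  Subgroup.subset_closure ⟨ι j, ⟨j, rfl⟩, rfl⟩

/-- `H1`: if `t` loops at `v` with label `y` and `s` moves, then `t` moves at `s v` and `s` loops at
`t s v` with label `y`. -/
theorem loop_transfer (h3 : ∀ i j, M i j ≤ 3) {s t : S}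
    (hb : cs.simple s * cs.simple t * cs.simple s = cs.simple t * cs.simple s * cs.simple t)
    {v : W} (hv : MinRep cs (Set.range ι) v) {y : J}
    (hy : cs.simple t * v = v * cs.simple (ι y)) (hs : ¬ Loop cs ι s v) :
    ¬ Loop cs ι t (cs.simple s * v) ∧
      cs.simple s * (cs.simple t * (cs.simple s * v)) =
        (cs.simple t * (cs.simple s * v)) * cs.simple (ι y) := by
  have e1 : cs.simple s * (cs.simple t * (cs.simple s * v)) =
        (cs.simple t * (cs.simple s * v)) * cs.simple (ι y) := by
    have h1 := congrArg (· * v) hb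
    simp only [mul_assoc] at h1 ⊢
    rw [h1, hy]
  refine ⟨?_, e1⟩
  rintro ⟨z, hz⟩
  have h2 : cs.simple s * v = v * (cs.simple (ι z) * (cs.simple (ι y))⁻¹ * (cs.simple (ι z))⁻¹) := by
    rw [hz] at e1
    -- s (s v z) = s v z y
    have e2 : v * cs.simple (ι z) = cs.simple s * v * cs.simple (ι z) * cs.simple (ι y) := by
      rw [← e1]
      simp only [mul_assoc, cs.simple_mul_simple_cancel_left]
    have e3 : cs.simple s * v = v * cs.simple (ι z) * (cs.simple (ι y))⁻¹ *
        (cs.simple (ι z))⁻¹ := by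
      rw [e2]; group
    rw [e3]; group
  have h4 := move_minRep h3 hv hs
  rw [h2] at h4
  have h5 := minRep_unique cs h3 hv (Subgroup.mul_mem _ (Subgroup.mul_mem _ (label_mem z)
    (Subgroup.inv_mem _ (label_mem y))) (Subgroup.inv_mem _ (label_mem z))) h4
  rw [h5, mul_one] at h2
  exact simple_ne_one s (mul_eq_right.1 h2)

variable (cs ι σ)

open Classical in
/-- The action of a generator. -/
noncomputable def step (h3 : ∀ i j, M i j ≤ 3) (s : S) (p : State cs ι × A) : State cs ι × A :=
  if h : Loop cs ι s p.1.1 then (p.1, σ h.choose * p.2)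
  else (⟨cs.simple s * p.1.1, move_minRep h3 p.1.2 h⟩, p.2)

open Classical in
/-- The action of the inverse of a generator. -/
noncomputable def stepInv (h3 : ∀ i j, M i j ≤ 3) (s : S) (p : State cs ι × A) :
    State cs ι × A :=
  if h : Loop cs ι s p.1.1 then (p.1, (σ h.choose)⁻¹ * p.2)
  else (⟨cs.simple s * p.1.1, move_minRep h3 p.1.2 h⟩, p.2)

variable {cs ι σ}

theorem label_unique (hinj : Function.Injective cs.simple) (hι : Function.Injective ι)
    {s : S} {v : W} {j k : J} (h1 : cs.simple s * v = v * cs.simple (ι j))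
    (h2 : cs.simple s * v = v * cs.simple (ι k)) : j = k :=
  hι (hinj (mul_left_cancel (h1.symm.trans h2)))

theorem step_loop (hG : Good cs ι σ) {s : S} {v : W} (hv : MinRep cs (Set.range ι) v) {j : J}
    (hj : cs.simple s * v = v * cs.simple (ι j)) (g : A) :
    step cs ι σ hG.h3 s (⟨v, hv⟩, g) = (⟨v, hv⟩, σ j * g) := by
  have hL : Loop cs ι s v := ⟨j, hj⟩
  have h1 : hL.choose = j := label_unique hG.hinj hG.hι hL.choose_spec hj
  unfold step
  rw [dif_pos hL, h1]

theorem step_move (h3 : ∀ i j, M i j ≤ 3) {s : S} {v : W} (hv : MinRep cs (Set.range ι) v)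
    (hL : ¬ Loop cs ι s v) (g : A) :
    step cs ι σ h3 s (⟨v, hv⟩, g) = (⟨cs.simple s * v, move_minRep h3 hv hL⟩, g) := by
  unfold step
  rw [dif_neg hL]

theorem stepInv_loop (hG : Good cs ι σ) {s : S} {v : W} (hv : MinRep cs (Set.range ι) v) {j : J}
    (hj : cs.simple s * v = v * cs.simple (ι j)) (g : A) :
    stepInv cs ι σ hG.h3 s (⟨v, hv⟩, g) = (⟨v, hv⟩, (σ j)⁻¹ * g) := by
  have hL : Loop cs ι s v := ⟨j, hj⟩
  have h1 : hL.choose = j := label_unique hG.hinj hG.hι hL.choose_spec hj
  unfold stepInv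
  rw [dif_pos hL, h1]

theorem stepInv_move (h3 : ∀ i j, M i j ≤ 3) {s : S} {v : W}
    (hv : MinRep cs (Set.range ι) v) (hL : ¬ Loop cs ι s v) (g : A) :
    stepInv cs ι σ h3 s (⟨v, hv⟩, g) = (⟨cs.simple s * v, move_minRep h3 hv hL⟩, g) := by
  unfold stepInv
  rw [dif_neg hL]

omit [Group A] in
/-- Two states with the same underlying element are equal. -/
theorem state_ext {v v' : W} {hv : MinRep cs (Set.range ι) v} {hv' : MinRep cs (Set.range ι) v'}
    {g g' : A} (h : v = v') (hg : g = g') :
    ((⟨v, hv⟩, g) : State cs ι × A) = (⟨v', hv'⟩, g') := by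
  subst h; subst hg; rfl

/-- The permutation of `State × A` attached to a generator. -/
noncomputable def stepPerm (hG : Good cs ι σ) (s : S) : Equiv.Perm (State cs ι × A) where
  toFun := step cs ι σ hG.h3 s
  invFun := stepInv cs ι σ hG.h3 s
  left_inv := by
    rintro ⟨⟨v, hv⟩, g⟩
    by_cases hL : Loop cs ι s v
    · obtain ⟨j, hj⟩ := hL
      rw [step_loop hG hv hj, stepInv_loop hG hv hj, inv_mul_cancel_left]
    · rw [step_move hG.h3 hv hL, stepInv_move hG.h3 _ (not_loop_back hL)]
      exact state_ext (cs.simple_mul_simple_cancel_left s) rfl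
  right_inv := by
    rintro ⟨⟨v, hv⟩, g⟩
    by_cases hL : Loop cs ι s v
    · obtain ⟨j, hj⟩ := hL
      rw [stepInv_loop hG hv hj, step_loop hG hv hj, mul_inv_cancel_left]
    · rw [stepInv_move hG.h3 hv hL, step_move hG.h3 _ (not_loop_back hL)]
      exact state_ext (cs.simple_mul_simple_cancel_left s) rfl

theorem step_comm (hG : Good cs ι σ) {s t : S} (hst : s ≠ t)
    (hc : cs.simple s * cs.simple t = cs.simple t * cs.simple s) (p : State cs ι × A) :
    step cs ι σ hG.h3 s (step cs ι σ hG.h3 t p) = step cs ι σ hG.h3 t (step cs ι σ hG.h3 s p) := by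
  obtain ⟨⟨v, hv⟩, g⟩ := p
  have hcv : cs.simple s * (cs.simple t * v) = cs.simple t * (cs.simple s * v) := by
    rw [← mul_assoc, hc, mul_assoc]
  -- the mixed case, for a general pair
  have mixed : ∀ (s t : S), cs.simple s * (cs.simple t * v) = cs.simple t * (cs.simple s * v) →
      ∀ (hs : ¬ Loop cs ι s v) (y : J) (hy : cs.simple t * v = v * cs.simple (ι y)),
      step cs ι σ hG.h3 s (step cs ι σ hG.h3 t (⟨v, hv⟩, g)) =
        step cs ι σ hG.h3 t (step cs ι σ hG.h3 s (⟨v, hv⟩, g)) := by
    intro s t hcv hs y hy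
    rw [step_loop hG hv hy, step_move hG.h3 hv hs, step_move hG.h3 hv hs]
    have h1 : cs.simple t * (cs.simple s * v) = (cs.simple s * v) * cs.simple (ι y) := by
      rw [← hcv, hy, mul_assoc]
    rw [step_loop hG _ h1]
  by_cases hs : Loop cs ι s v
  · by_cases ht : Loop cs ι t v
    · obtain ⟨x, hx⟩ := hs
      obtain ⟨y, hy⟩ := ht
      rw [step_loop hG hv hy, step_loop hG hv hx, step_loop hG hv hx, step_loop hG hv hy]
      have hxy : x ≠ y := by
        rintro rfl
        exact hst (hG.hinj (mul_right_cancel (hx.trans hy.symm)))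
      have h1 : cs.simple (ι x) * cs.simple (ι y) = cs.simple (ι y) * cs.simple (ι x) := by
        rw [hy, ← mul_assoc, hx, ← mul_assoc, hy, mul_assoc, mul_assoc] at hcv
        exact mul_left_cancel hcv
      rw [← mul_assoc, ← mul_assoc, hG.hcomm x y hxy h1]
    · obtain ⟨x, hx⟩ := hs
      exact (mixed t s hcv.symm ht x hx).symm
  · by_cases ht : Loop cs ι t v
    · obtain ⟨y, hy⟩ := ht
      exact mixed s t hcv hs y hy
    · have h1 : ¬ Loop cs ι s (cs.simple t * v) := by
        rintro ⟨x, hx⟩
        apply hs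
        refine ⟨x, ?_⟩
        rw [hcv, mul_assoc] at hx
        exact mul_left_cancel hx
      have h2 : ¬ Loop cs ι t (cs.simple s * v) := by
        rintro ⟨x, hx⟩
        apply ht
        refine ⟨x, ?_⟩
        rw [← hcv, mul_assoc] at hx
        exact mul_left_cancel hx
      rw [step_move hG.h3 hv ht, step_move hG.h3 _ h1, step_move hG.h3 hv hs,
        step_move hG.h3 _ h2]
      exact state_ext hcv rfl

theorem step_braid (hG : Good cs ι σ) {s t : S} (hst : s ≠ t)
    (hb : cs.simple s * cs.simple t * cs.simple s = cs.simple t * cs.simple s * cs.simple t)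
    (p : State cs ι × A) :
    step cs ι σ hG.h3 s (step cs ι σ hG.h3 t (step cs ι σ hG.h3 s p)) =
      step cs ι σ hG.h3 t (step cs ι σ hG.h3 s (step cs ι σ hG.h3 t p)) := by
  obtain ⟨⟨v, hv⟩, g⟩ := p
  -- case: one loops, the other one moves
  have mixed : ∀ (s t : S)
      (_ : cs.simple s * cs.simple t * cs.simple s = cs.simple t * cs.simple s * cs.simple t)
      (_ : ¬ Loop cs ι s v) (y : J) (_ : cs.simple t * v = v * cs.simple (ι y)),
      step cs ι σ hG.h3 s (step cs ι σ hG.h3 t (step cs ι σ hG.h3 s (⟨v, hv⟩, g))) =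
        step cs ι σ hG.h3 t (step cs ι σ hG.h3 s (step cs ι σ hG.h3 t (⟨v, hv⟩, g))) := by
    intro s t hb hs y hy
    obtain ⟨h1, h2⟩ := loop_transfer hG.h3 hb hv hy hs
    rw [step_move hG.h3 hv hs, step_move hG.h3 _ h1, step_loop hG _ h2, step_loop hG hv hy,
      step_move hG.h3 hv hs, step_move hG.h3 _ h1]
  -- case: both move, and then `t` loops
  have mixed2 : ∀ (s t : S)
      (_ : cs.simple s * cs.simple t * cs.simple s = cs.simple t * cs.simple s * cs.simple t)
      (_ : ¬ Loop cs ι s v) (_ : ¬ Loop cs ι t v) (y : J)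
      (_ : cs.simple t * (cs.simple s * v) = (cs.simple s * v) * cs.simple (ι y)),
      step cs ι σ hG.h3 s (step cs ι σ hG.h3 t (step cs ι σ hG.h3 s (⟨v, hv⟩, g))) =
        step cs ι σ hG.h3 t (step cs ι σ hG.h3 s (step cs ι σ hG.h3 t (⟨v, hv⟩, g))) := by
    intro s t hb hs ht y hy
    obtain ⟨h1, h2⟩ := loop_transfer hG.h3 hb (move_minRep hG.h3 hv hs) hy (not_loop_back hs)
    rw [cs.simple_mul_simple_cancel_left] at h2
    rw [step_move hG.h3 hv hs, step_loop hG _ hy, step_move hG.h3 _ (not_loop_back hs),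
      step_move hG.h3 hv ht, step_loop hG _ h2, step_move hG.h3 _ (not_loop_back ht)]
    refine state_ext ?_ rfl
    rw [cs.simple_mul_simple_cancel_left, cs.simple_mul_simple_cancel_left]
  -- no loop after two moves
  have noloop : ∀ (s t : S)
      (_ : cs.simple s * cs.simple t * cs.simple s = cs.simple t * cs.simple s * cs.simple t)
      (_ : ¬ Loop cs ι s v) (_ : ¬ Loop cs ι t v)
      (_ : ¬ Loop cs ι t (cs.simple s * v)), ¬ Loop cs ι s (cs.simple t * (cs.simple s * v)) := by
    intro s t hb hs ht hts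
    rintro ⟨z, hz⟩
    have hv1 := move_minRep hG.h3 hv hs
    have hv2 := move_minRep hG.h3 hv1 hts
    obtain ⟨-, h2⟩ := loop_transfer hG.h3 hb.symm hv2 hz (not_loop_back hts)
    simp only [cs.simple_mul_simple_cancel_left] at h2
    exact ht ⟨z, h2⟩
  by_cases hs : Loop cs ι s v
  · by_cases ht : Loop cs ι t v
    · obtain ⟨x, hx⟩ := hs
      obtain ⟨y, hy⟩ := ht
      have hxy : x ≠ y := by
        rintro rfl
        exact hst (hG.hinj (mul_right_cancel (hx.trans hy.symm)))
      have h1 : cs.simple (ι x) * cs.simple (ι y) * cs.simple (ι x) =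
          cs.simple (ι y) * cs.simple (ι x) * cs.simple (ι y) := by
        have e := congrArg (· * v) hb
        simp only [mul_assoc] at e ⊢
        have ex : ∀ z, cs.simple s * (v * z) = v * (cs.simple (ι x) * z) := by
          intro z; rw [← mul_assoc, hx, mul_assoc]
        have ey : ∀ z, cs.simple t * (v * z) = v * (cs.simple (ι y) * z) := by
          intro z; rw [← mul_assoc, hy, mul_assoc]
        rw [hx, ey, ex, hy, ex, ey] at e
        exact mul_left_cancel e
      have h2 := hG.hbraid x y hxy h1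
      rw [step_loop hG hv hx, step_loop hG hv hy, step_loop hG hv hx, step_loop hG hv hy,
        step_loop hG hv hx, step_loop hG hv hy]
      simp only [← mul_assoc, h2]
    · obtain ⟨x, hx⟩ := hs
      exact (mixed t s hb.symm ht x hx).symm
  · by_cases ht : Loop cs ι t v
    · obtain ⟨y, hy⟩ := ht
      exact mixed s t hb hs y hy
    · by_cases hts : Loop cs ι t (cs.simple s * v)
      · obtain ⟨y, hy⟩ := hts
        exact mixed2 s t hb hs ht y hy
      · by_cases hst' : Loop cs ι s (cs.simple t * v)
        · obtain ⟨x, hx⟩ := hst'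
          exact (mixed2 t s hb.symm ht hs x hx).symm
        · have n1 := noloop s t hb hs ht hts
          have n2 := noloop t s hb.symm ht hs hst'
          rw [step_move hG.h3 hv hs, step_move hG.h3 _ hts, step_move hG.h3 _ n1,
            step_move hG.h3 hv ht, step_move hG.h3 _ hst', step_move hG.h3 _ n2]
          refine state_ext ?_ rfl
          rw [← mul_assoc, ← mul_assoc, hb, mul_assoc, mul_assoc]

/-- The step maps commute with right multiplication. -/
theorem step_right (hG : Good cs ι σ) (s : S) (v : State cs ι) (g h : A) :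
    step cs ι σ hG.h3 s (v, g * h) =
      ((step cs ι σ hG.h3 s (v, g)).1, (step cs ι σ hG.h3 s (v, g)).2 * h) := by
  obtain ⟨v, hv⟩ := v
  by_cases hL : Loop cs ι s v
  · obtain ⟨j, hj⟩ := hL
    rw [step_loop hG hv hj, step_loop hG hv hj, mul_assoc]
  · rw [step_move hG.h3 hv hL, step_move hG.h3 hv hL]

end Pool.Agent.Lib.MP_31c440_gt
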