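import Mathlib

/-!
# The braid group and the virtual braid group modulo virtualisation
-/

namespace Pool.Agent.Lib.MP_31c440_gt

/-- Neighbouring indices. -/
def Adj {n : ℕ} (i j : Fin n) : Prop := (i : ℕ) + 1 = j ∨ (j : ℕ) + 1 = i

/-- Distinct non-neighbouring indices. -/
def Far {n : ℕ} (i j : Fin n) : Prop := (i : ℕ) + 1 < j ∨ (j : ℕ) + 1 < i

/-- The generator `σ_i` of the free group on `σ_0, …, σ_{n-1}`. -/
abbrev fs {n : ℕ} (i : Fin n) : FreeGroup (Fin n) := FreeGroup.of i

/-- The Artin relations between the generators `σ_0, …, σ_{n-1}` of the braid group on `n + 1`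
strands. -/
inductive BraidRel (n : ℕ) : FreeGroup (Fin n) → Prop
  | braid (i j : Fin n) (h : Adj i j) : BraidRel n (fs i * fs j * fs i * (fs j * fs i * fs j)⁻¹)
  | comm (i j : Fin n) (h : Far i j) : BraidRel n (fs i * fs j * (fs j * fs i)⁻¹)

/-- Artin's braid group on `n + 1` strands. -/
abbrev BraidGroup (n : ℕ) : Type := PresentedGroup {r | BraidRel n r}

/-- The classical crossing `σ_i` of the strands in positions `i` and `i + 1`, as an element of the
free group on classical and virtual crossings. -/
abbrev cl {n : ℕ} (i : Fin n) : FreeGroup (Fin n ⊕ Fin n) := FreeGroup.of (Sum.inl i)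

/-- The virtual crossing `τ_i` of the strands in positions `i` and `i + 1`, as an element of the
free group on classical and virtual crossings. -/
abbrev vt {n : ℕ} (i : Fin n) : FreeGroup (Fin n ⊕ Fin n) := FreeGroup.of (Sum.inr i)

/-- The defining relations of the group of virtual braids on `n + 1` strands modulo virtualisation.
The first seven families are the usual relations of the virtual braid group, the last one is the
virtualisation move. -/
inductive VirtRel (n : ℕ) : FreeGroup (Fin n ⊕ Fin n) → Prop
  /-- Classical third Reidemeister move. -/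
  | braid (i j : Fin n) (h : Adj i j) :
      VirtRel n (cl i * cl j * cl i * (cl j * cl i * cl j)⁻¹)
  /-- Distant classical crossings commute. -/
  | comm (i j : Fin n) (h : Far i j) : VirtRel n (cl i * cl j * (cl j * cl i)⁻¹)
  /-- Virtual second Reidemeister move. -/
  | vsq (i : Fin n) : VirtRel n (vt i * vt i)
  /-- Virtual third Reidemeister move. -/
  | vbraid (i j : Fin n) (h : Adj i j) :
      VirtRel n (vt i * vt j * vt i * (vt j * vt i * vt j)⁻¹)
  /-- Distant virtual crossings commute. -/
  | vcomm (i j : Fin n) (h : Far i j) : VirtRel n (vt i * vt j * (vt j * vt i)⁻¹)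
  /-- Distant classical and virtual crossings commute. -/
  | mcomm (i j : Fin n) (h : Far i j) : VirtRel n (cl i * vt j * (vt j * cl i)⁻¹)
  /-- Mixed third move: an arc with only virtual crossings passes a classical crossing. -/
  | mixed (i j : Fin n) (h : Adj i j) : VirtRel n (vt i * vt j * cl i * (cl j * vt i * vt j)⁻¹)
  /-- Virtualisation: flanking a classical crossing by two virtual crossings of the same two strands
  and switching which strand passes over (that is, `σ_i` is replaced by `τ_i σ_i τ_i`). -/
  | virtualisation (i : Fin n) : VirtRel n (vt i * cl i * vt i * (cl i)⁻¹)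

/-- The group of virtual braids on `n + 1` strands modulo virtualisation. -/
abbrev VirtGroup (n : ℕ) : Type := PresentedGroup {r | VirtRel n r}

theorem rel_of_mem {α : Type*} {rels : Set (FreeGroup α)} {x y : FreeGroup α}
    (h : x * y⁻¹ ∈ rels) : PresentedGroup.mk rels x = PresentedGroup.mk rels y :=
  PresentedGroup.mk_eq_mk_of_mul_inv_mem h

/-- The natural homomorphism from classical braids to virtual braids modulo virtualisation. -/
def incl (n : ℕ) : BraidGroup n →* VirtGroup n :=
  PresentedGroup.toGroup (f := fun i => PresentedGroup.of (Sum.inl i)) (by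
    intro r hr
    cases hr with
    | braid i j h =>
      simp only [map_mul, map_inv, FreeGroup.lift_apply_of]
      exact mul_inv_eq_one.2 (rel_of_mem (VirtRel.braid i j h))
    | comm i j h =>
      simp only [map_mul, map_inv, FreeGroup.lift_apply_of]
      exact mul_inv_eq_one.2 (rel_of_mem (VirtRel.comm i j h)))

theorem incl_of (n : ℕ) (i : Fin n) :
    incl n (PresentedGroup.of i) = PresentedGroup.of (Sum.inl i) :=
  PresentedGroup.toGroup.of _

end Pool.Agent.Lib.MP_31c440_gt
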