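import Mathlib
import Pool.Agent.Lib.MP_31c440_gt.Action
import Pool.Agent.Lib.MP_31c440_gt.Defs

/-!
# The Coxeter group of type A, the Artin group on its reflections and the semidirect product
-/

namespace Pool.Agent.Lib.MP_31c440_gt

open Equiv

/-- The Coxeter group of type `A_n` (abstractly presented). -/
abbrev W0 (n : ℕ) : Type := (CoxeterMatrix.A n).Group

/-- Its Coxeter system. -/
abbrev cs0 (n : ℕ) : CoxeterSystem (CoxeterMatrix.A n) (W0 n) := (CoxeterMatrix.A n).toCoxeterSystem

theorem A_apply (n : ℕ) (i j : Fin n) : (CoxeterMatrix.A n) i j =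
    if i = j then 1 else (if (j : ℕ) + 1 = i ∨ (i : ℕ) + 1 = j then 3 else 2) := rfl

theorem A_le (n : ℕ) (i j : Fin n) : (CoxeterMatrix.A n) i j ≤ 3 := by
  rw [A_apply]; split_ifs <;> omega

theorem A_ne_zero (n : ℕ) (i j : Fin n) : (CoxeterMatrix.A n) i j ≠ 0 := by
  rw [A_apply]; split_ifs <;> omega

theorem adj_ne {n : ℕ} {i j : Fin n} (h : Adj i j) : i ≠ j := by
  rintro rfl
  unfold Adj at h
  omega

theorem A_eq_three_iff {n : ℕ} {i j : Fin n} : (CoxeterMatrix.A n) i j = 3 ↔ Adj i j := by
  rw [A_apply]
  constructor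
  · intro h
    unfold Adj
    split_ifs at h <;> omega
  · intro h
    have h1 := adj_ne h
    unfold Adj at h
    rw [if_neg h1, if_pos (by omega)]

theorem A_eq_two_iff {n : ℕ} {i j : Fin n} : (CoxeterMatrix.A n) i j = 2 ↔ Far i j := by
  rw [A_apply]
  constructor
  · intro h
    unfold Far
    by_cases h1 : i = j
    · rw [if_pos h1] at h; omega
    · rw [if_neg h1] at h
      have h2 : (i : ℕ) ≠ j := fun h3 => h1 (Fin.ext h3)
      split_ifs at h with h3 <;> omega
  · intro h
    unfold Far at h
    rw [if_neg (by rintro rfl; omega), if_neg (by omega)]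

/-- The adjacent transpositions. -/
def tr (n : ℕ) (i : Fin n) : Perm (Fin (n + 1)) := swap i.castSucc i.succ

theorem tr_mul_self (n : ℕ) (i : Fin n) : tr n i * tr n i = 1 := swap_mul_self _ _

theorem tr_comm {n : ℕ} {i j : Fin n} (h : Far i j) : tr n i * tr n j = tr n j * tr n i := by
  unfold tr
  have h1 : (i : ℕ) ≠ j := by unfold Far at h; omega
  have h2 : Perm.Disjoint (swap i.castSucc i.succ) (swap j.castSucc j.succ) := by
    intro x
    by_contra hx
    rw [not_or] at hx
    obtain ⟨hx1, hx2⟩ := hx
    have hx3 := (swap_apply_ne_self_iff.1 hx1).2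
    have hx4 := (swap_apply_ne_self_iff.1 hx2).2
    unfold Far at h
    rcases hx3 with h3 | h3 <;> rcases hx4 with h4 | h4 <;>
      · have h5 := congrArg Fin.val h3
        have h6 := congrArg Fin.val h4
        simp only [Fin.val_castSucc, Fin.val_succ] at h5 h6
        omega
  exact h2.commute.eq

theorem tr_braid {n : ℕ} {i j : Fin n} (h : (i : ℕ) + 1 = j) :
    tr n i * tr n j * tr n i = tr n j * tr n i * tr n j := by
  unfold tr
  have h1 : i.succ = j.castSucc := by
    apply Fin.ext; simpa using h
  have h2 : i.castSucc ≠ j.castSucc := by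
    intro h3
    have := congrArg Fin.val h3
    simp at this
    omega
  have h3 : i.castSucc ≠ j.succ := by
    intro h3
    have := congrArg Fin.val h3
    simp at this
    omega
  have h4 : j.castSucc ≠ j.succ := by
    intro h3
    have := congrArg Fin.val h3
    simp at this
  rw [h1]
  -- a = castSucc i, b = castSucc j, c = succ j
  have e1 := swap_mul_swap_mul_swap h2 h3
  -- swap b c * swap a b * swap b c = swap c a
  rw [e1]
  have e2 := swap_mul_swap_mul_swap (x := j.succ) (y := j.castSucc) (z := i.castSucc) h4.symm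
    h3.symm
  rw [swap_comm j.castSucc i.castSucc, swap_comm j.succ j.castSucc] at e2
  rw [e2, swap_comm]

theorem tr_braid' {n : ℕ} {i j : Fin n} (h : Adj i j) :
    tr n i * tr n j * tr n i = tr n j * tr n i * tr n j := by
  rcases h with h | h
  · exact tr_braid h
  · exact (tr_braid h).symm

theorem tr_liftable (n : ℕ) : (CoxeterMatrix.A n).IsLiftable (tr n) := by
  intro i j
  by_cases h1 : i = j
  · subst h1
    rw [(CoxeterMatrix.A n).diagonal, pow_one, tr_mul_self]
  · by_cases h2 : Adj i j
    · rw [A_eq_three_iff.2 h2]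
      have h3 := tr_braid' h2
      have h4 : (tr n i * tr n j) ^ 3 =
          (tr n i * tr n j * tr n i) * (tr n j * tr n i * tr n j) := by
        simp [pow_succ, mul_assoc]
      rw [h4, h3]
      have h5 := tr_mul_self n i
      have h6 := tr_mul_self n j
      calc tr n j * tr n i * tr n j * (tr n j * tr n i * tr n j)
          = tr n j * (tr n i * (tr n j * tr n j) * tr n i) * tr n j := by
            simp only [mul_assoc]
        _ = 1 := by rw [h6, mul_one, h5, mul_one, h6]
    · have h3 : Far i j := by
        unfold Far; unfold Adj at h2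
        have h4 : (i : ℕ) ≠ j := fun h3 => h1 (Fin.ext h3)
        omega
      rw [A_eq_two_iff.2 h3, pow_two]
      have h4 := tr_comm h3
      calc tr n i * tr n j * (tr n i * tr n j) = tr n i * (tr n j * tr n i) * tr n j := by
            simp only [mul_assoc]
        _ = tr n i * (tr n i * tr n j) * tr n j := by rw [h4]
        _ = 1 := by rw [← mul_assoc, tr_mul_self, one_mul, tr_mul_self]

/-- The permutation representation. -/
noncomputable def permRep (n : ℕ) : W0 n →* Perm (Fin (n + 1)) :=
  (cs0 n).lift ⟨tr n, tr_liftable n⟩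

theorem permRep_simple (n : ℕ) (i : Fin n) : permRep n ((cs0 n).simple i) = tr n i :=
  (cs0 n).lift_apply_simple (tr_liftable n) i

theorem tr_injective (n : ℕ) : Function.Injective (tr n) := by
  intro i j h
  have h1 : tr n i i.castSucc = i.succ := swap_apply_left _ _
  rw [h] at h1
  unfold tr at h1
  rw [swap_apply_def] at h1
  split_ifs at h1 with h2 h3
  · exact Fin.castSucc_injective n h2
  · have h4 := congrArg Fin.val h3
    have h5 := congrArg Fin.val h1
    simp at h4 h5
    omega
  · have h5 := congrArg Fin.val h1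
    simp at h5

theorem simple0_injective (n : ℕ) : Function.Injective (cs0 n).simple := by
  intro i j h
  apply tr_injective n
  rw [← permRep_simple, ← permRep_simple, h]

theorem braidFamily (n : ℕ) :
    BraidFamily (CoxeterMatrix.A n) (fun i : Fin n => (PresentedGroup.of i : BraidGroup n)) where
  comm := fun i j h => rel_of_mem (BraidRel.comm i j (A_eq_two_iff.1 h))
  braid := fun i j h => rel_of_mem (BraidRel.braid i j (A_eq_three_iff.1 h))

/-! ### The Coxeter group on the reflections -/

/-- The reflections of the Coxeter group of type `A_n`. -/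
abbrev T (n : ℕ) : Type := {t : W0 n // (cs0 n).IsReflection t}

theorem T_sq {n : ℕ} (t : T n) : t.1 * t.1 = 1 := t.2.mul_self

open Classical in
/-- The Coxeter matrix on the reflections: `m = 2` for commuting reflections and `m = 3` for
reflections which satisfy the braid relation. -/
noncomputable def MT (n : ℕ) : CoxeterMatrix (T n) where
  M := Matrix.of fun s t => if s = t then 1 else if s.1 * t.1 = t.1 * s.1 then 2
    else if s.1 * t.1 * s.1 = t.1 * s.1 * t.1 then 3 else 0
  isSymm := by
    apply Matrix.IsSymm.ext
    intro s t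
    simp only [Matrix.of_apply]
    by_cases h1 : s = t
    · subst h1; rfl
    · rw [if_neg h1, if_neg (Ne.symm h1)]
      by_cases h2 : s.1 * t.1 = t.1 * s.1
      · rw [if_pos h2, if_pos h2.symm]
      · rw [if_neg h2, if_neg (fun h => h2 h.symm)]
        by_cases h3 : s.1 * t.1 * s.1 = t.1 * s.1 * t.1
        · rw [if_pos h3, if_pos h3.symm]
        · rw [if_neg h3, if_neg (fun h => h3 h.symm)]
  diagonal := by intro i; simp
  off_diagonal := by
    intro s t h
    simp only [Matrix.of_apply]
    rw [if_neg h]
    split_ifs <;> omega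

open Classical in
theorem MT_apply {n : ℕ} (s t : T n) : MT n s t =
    if s = t then 1 else if s.1 * t.1 = t.1 * s.1 then 2
    else if s.1 * t.1 * s.1 = t.1 * s.1 * t.1 then 3 else 0 := rfl

theorem MT_le {n : ℕ} (s t : T n) : MT n s t ≤ 3 := by
  classical
  rw [MT_apply]; split_ifs <;> omega

/-- The big Coxeter group. -/
abbrev W1 (n : ℕ) : Type := (MT n).Group

/-- Its Coxeter system. -/
noncomputable abbrev cs1 (n : ℕ) : CoxeterSystem (MT n) (W1 n) := (MT n).toCoxeterSystem

theorem not_comm_of_braid {n : ℕ} {s t : T n} (hst : s ≠ t)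
    (hb : s.1 * t.1 * s.1 = t.1 * s.1 * t.1) : ¬ s.1 * t.1 = t.1 * s.1 := by
  intro hc
  apply hst
  apply Subtype.ext
  have h1 : t.1 * s.1 * s.1 = s.1 * t.1 * t.1 := by
    rw [← hc, hb, ← hc]
  rw [mul_assoc, mul_assoc, T_sq, T_sq, mul_one, mul_one] at h1
  exact h1.symm

theorem T_liftable (n : ℕ) : (MT n).IsLiftable (fun t : T n => t.1) := by
  classical
  intro s t
  rw [MT_apply]
  split_ifs with h1 h2 h3
  · rw [h1, pow_one, T_sq]
  · rw [pow_two]
    calc s.1 * t.1 * (s.1 * t.1) = s.1 * (t.1 * s.1) * t.1 := by simp only [mul_assoc]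
      _ = s.1 * (s.1 * t.1) * t.1 := by rw [h2]
      _ = 1 := by rw [← mul_assoc, T_sq, one_mul, T_sq]
  · have h4 : (s.1 * t.1) ^ 3 = (s.1 * t.1 * s.1) * (t.1 * s.1 * t.1) := by
      simp [pow_succ, mul_assoc]
    rw [h4, h3]
    calc t.1 * s.1 * t.1 * (t.1 * s.1 * t.1)
        = t.1 * (s.1 * (t.1 * t.1) * s.1) * t.1 := by simp only [mul_assoc]
      _ = 1 := by rw [T_sq, mul_one, T_sq, mul_one, T_sq]
  · rw [pow_zero]

/-- The retraction of the big Coxeter group onto the Coxeter group of type `A`. -/
noncomputable def rho (n : ℕ) : W1 n →* W0 n := (cs1 n).lift ⟨fun t => t.1, T_liftable n⟩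

theorem rho_simple {n : ℕ} (t : T n) : rho n ((cs1 n).simple t) = t.1 :=
  (cs1 n).lift_apply_simple (T_liftable n) t

/-- The simple reflections among the reflections. -/
noncomputable def iota (n : ℕ) (i : Fin n) : T n := ⟨(cs0 n).simple i, (cs0 n).isReflection_simple i⟩

theorem good (n : ℕ) : Good (cs1 n) (iota n)
    (fun i : Fin n => (PresentedGroup.of i : BraidGroup n)) where
  h3 := MT_le
  hinj := by
    intro s t h
    apply Subtype.ext
    rw [← rho_simple, ← rho_simple, h]
  hι := by
    intro i j h
    exact simple0_injective n (congrArg Subtype.val h)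
  hcomm := by
    intro i j hij h
    have h1 := congrArg (rho n) h
    rw [map_mul, map_mul, rho_simple, rho_simple] at h1
    have h2 : ¬ Adj i j := by
      intro h3
      have h4 := simple_braid_of_three (cs0 n) (A_eq_three_iff.2 h3)
      exact not_comm_of_braid (s := iota n i) (t := iota n j)
        (fun h5 => hij (simple0_injective n (congrArg Subtype.val h5))) h4 h1
    have h3 : Far i j := by
      unfold Far; unfold Adj at h2
      have h4 : (i : ℕ) ≠ j := fun h3 => hij (Fin.ext h3)
      omega
    exact (braidFamily n).comm i j (A_eq_two_iff.2 h3)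
  hbraid := by
    intro i j hij h
    have h1 := congrArg (rho n) h
    simp only [map_mul, rho_simple] at h1
    have h2 : Adj i j := by
      by_contra h2
      have h3 : Far i j := by
        unfold Far; unfold Adj at h2
        have h4 : (i : ℕ) ≠ j := fun h3 => hij (Fin.ext h3)
        omega
      have h4 := simple_comm_of_two (cs0 n) (A_eq_two_iff.2 h3)
      exact not_comm_of_braid (s := iota n i) (t := iota n j)
        (fun h5 => hij (simple0_injective n (congrArg Subtype.val h5))) h1 h4
    exact (braidFamily n).braid i j (A_eq_three_iff.2 h2)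

/-! ### The Artin group on the reflections -/

/-- Relations of the Artin group on the reflections. -/
inductive ArtRel (n : ℕ) : FreeGroup (T n) → Prop
  | comm (s t : T n) (h : s.1 * t.1 = t.1 * s.1) :
      ArtRel n (FreeGroup.of s * FreeGroup.of t * (FreeGroup.of t * FreeGroup.of s)⁻¹)
  | braid (s t : T n) (h : s.1 * t.1 * s.1 = t.1 * s.1 * t.1) :
      ArtRel n (FreeGroup.of s * FreeGroup.of t * FreeGroup.of s *
        (FreeGroup.of t * FreeGroup.of s * FreeGroup.of t)⁻¹)

/-- The Artin group on the reflections. -/
abbrev Art (n : ℕ) : Type := PresentedGroup {r | ArtRel n r}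

theorem simple1_comm {n : ℕ} {s t : T n} (hst : s ≠ t) (h : s.1 * t.1 = t.1 * s.1) :
    (cs1 n).simple s * (cs1 n).simple t = (cs1 n).simple t * (cs1 n).simple s := by
  classical
  apply simple_comm_of_two
  rw [MT_apply, if_neg hst, if_pos h]

theorem simple1_braid {n : ℕ} {s t : T n} (hst : s ≠ t)
    (h : s.1 * t.1 * s.1 = t.1 * s.1 * t.1) :
    (cs1 n).simple s * (cs1 n).simple t * (cs1 n).simple s =
      (cs1 n).simple t * (cs1 n).simple s * (cs1 n).simple t := by
  classical
  apply simple_braid_of_three
  rw [MT_apply, if_neg hst, if_neg (not_comm_of_braid hst h), if_pos h]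

/-- States times braids. -/
abbrev SB (n : ℕ) : Type := State (cs1 n) (iota n) × BraidGroup n

/-- The action of the Artin group on states times braids. -/
noncomputable def Phi (n : ℕ) : Art n →* Perm (SB n) :=
  PresentedGroup.toGroup (f := fun t => stepPerm (good n) t) (by
    intro r hr
    cases hr with
    | comm s t h =>
      simp only [map_mul, map_inv, FreeGroup.lift_apply_of]
      apply mul_inv_eq_one.2
      by_cases hst : s = t
      · rw [hst]
      · ext1 p
        exact step_comm (good n) hst (simple1_comm hst h) p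
    | braid s t h =>
      simp only [map_mul, map_inv, FreeGroup.lift_apply_of]
      apply mul_inv_eq_one.2
      by_cases hst : s = t
      · rw [hst]
      · ext1 p
        exact step_braid (good n) hst (simple1_braid hst h) p)

theorem Phi_of {n : ℕ} (t : T n) : Phi n (PresentedGroup.of t) = stepPerm (good n) t :=
  PresentedGroup.toGroup.of _

/-- Conjugation of reflections. -/
def conjT {n : ℕ} (p : W0 n) (t : T n) : T n := ⟨p * t.1 * p⁻¹, t.2.conj p⟩

/-- The action of the Coxeter group of type `A` on the Artin group. -/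
def cmap {n : ℕ} (p : W0 n) : Art n →* Art n :=
  PresentedGroup.toGroup (f := fun t => PresentedGroup.of (conjT p t)) (by
    intro r hr
    cases hr with
    | comm s t h =>
      simp only [map_mul, map_inv, FreeGroup.lift_apply_of]
      apply mul_inv_eq_one.2
      refine rel_of_mem (ArtRel.comm _ _ ?_)
      change p * s.1 * p⁻¹ * (p * t.1 * p⁻¹) = p * t.1 * p⁻¹ * (p * s.1 * p⁻¹)
      have e1 : p * s.1 * p⁻¹ * (p * t.1 * p⁻¹) = p * (s.1 * t.1) * p⁻¹ := by group
      have e2 : p * t.1 * p⁻¹ * (p * s.1 * p⁻¹) = p * (t.1 * s.1) * p⁻¹ := by group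
      rw [e1, e2, h]
    | braid s t h =>
      simp only [map_mul, map_inv, FreeGroup.lift_apply_of]
      apply mul_inv_eq_one.2
      refine rel_of_mem (ArtRel.braid _ _ ?_)
      change p * s.1 * p⁻¹ * (p * t.1 * p⁻¹) * (p * s.1 * p⁻¹) =
        p * t.1 * p⁻¹ * (p * s.1 * p⁻¹) * (p * t.1 * p⁻¹)
      have e1 : p * s.1 * p⁻¹ * (p * t.1 * p⁻¹) * (p * s.1 * p⁻¹) =
        p * (s.1 * t.1 * s.1) * p⁻¹ := by group
      have e2 : p * t.1 * p⁻¹ * (p * s.1 * p⁻¹) * (p * t.1 * p⁻¹) =
        p * (t.1 * s.1 * t.1) * p⁻¹ := by group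
      rw [e1, e2, h])

theorem cmap_of {n : ℕ} (p : W0 n) (t : T n) :
    cmap p (PresentedGroup.of t) = PresentedGroup.of (conjT p t) :=
  PresentedGroup.toGroup.of _

theorem conjT_one {n : ℕ} (t : T n) : conjT 1 t = t := by
  apply Subtype.ext; simp [conjT]

theorem conjT_mul {n : ℕ} (p q : W0 n) (t : T n) : conjT (p * q) t = conjT p (conjT q t) := by
  apply Subtype.ext
  simp only [conjT, mul_inv_rev]
  group

theorem cmap_one {n : ℕ} : cmap (1 : W0 n) = MonoidHom.id _ := by
  apply PresentedGroup.ext
  intro t
  rw [cmap_of, conjT_one]; rfl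

theorem cmap_mul {n : ℕ} (p q : W0 n) : cmap (p * q) = (cmap p).comp (cmap q) := by
  apply PresentedGroup.ext
  intro t
  rw [cmap_of, MonoidHom.comp_apply, cmap_of, cmap_of, conjT_mul]

/-- The action as a homomorphism to the automorphism group. -/
def actA (n : ℕ) : W0 n →* MulAut (Art n) where
  toFun p := MonoidHom.toMulEquiv (cmap p) (cmap p⁻¹)
    (by rw [← cmap_mul, inv_mul_cancel, cmap_one])
    (by rw [← cmap_mul, mul_inv_cancel, cmap_one])
  map_one' := by
    ext a
    change cmap 1 a = a
    rw [cmap_one]; rfl
  map_mul' := by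
    intro p q
    ext a
    change cmap (p * q) a = cmap p (cmap q a)
    rw [cmap_mul]; rfl

theorem actA_apply {n : ℕ} (p : W0 n) (a : Art n) : actA n p a = cmap p a := rfl

/-- The semidirect product of the Artin group and the Coxeter group. -/
abbrev SD (n : ℕ) : Type := SemidirectProduct (Art n) (W0 n) (actA n)

/-- The Artin generators of the braid group inside the semidirect product. -/
noncomputable def emb (n : ℕ) : BraidGroup n →* Art n :=
  PresentedGroup.toGroup (f := fun i => PresentedGroup.of (iota n i)) (by
    intro r hr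
    cases hr with
    | braid i j h =>
      simp only [map_mul, map_inv, FreeGroup.lift_apply_of]
      apply mul_inv_eq_one.2
      exact rel_of_mem (ArtRel.braid _ _ (simple_braid_of_three (cs0 n) (A_eq_three_iff.2 h)))
    | comm i j h =>
      simp only [map_mul, map_inv, FreeGroup.lift_apply_of]
      apply mul_inv_eq_one.2
      exact rel_of_mem (ArtRel.comm _ _ (simple_comm_of_two (cs0 n) (A_eq_two_iff.2 h))))

theorem emb_of {n : ℕ} (i : Fin n) : emb n (PresentedGroup.of i) = PresentedGroup.of (iota n i) :=
  PresentedGroup.toGroup.of _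

theorem inr_mul_inl {n : ℕ} (p : W0 n) (a : Art n) :
    (SemidirectProduct.inr p : SD n) * SemidirectProduct.inl a =
      SemidirectProduct.inl (cmap p a) * SemidirectProduct.inr p := by
  have h := SemidirectProduct.inl_aut (φ := actA n) p a
  rw [actA_apply] at h
  rw [h, map_inv, inv_mul_cancel_right]

/-- The homomorphism from the virtual braid group modulo virtualisation to the semidirect
product. -/
noncomputable def Psi (n : ℕ) : VirtGroup n →* SD n :=
  PresentedGroup.toGroup
    (f := Sum.elim (fun i => SemidirectProduct.inl (PresentedGroup.of (iota n i)))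
      (fun i => SemidirectProduct.inr ((cs0 n).simple i))) (by
    intro r hr
    have hfix : ∀ (p : W0 n) (i j : Fin n), p * (cs0 n).simple i * p⁻¹ = (cs0 n).simple j →
        (SemidirectProduct.inr p : SD n) * SemidirectProduct.inl (PresentedGroup.of (iota n i)) =
        SemidirectProduct.inl (PresentedGroup.of (iota n j)) * SemidirectProduct.inr p := by
      intro p i j h
      rw [inr_mul_inl, cmap_of]
      congr 3
      exact Subtype.ext h
    cases hr with
    | braid i j h =>
      simp only [map_mul, map_inv, FreeGroup.lift_apply_of, Sum.elim_inl]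
      apply mul_inv_eq_one.2
      simp only [← map_mul]
      congr 1
      exact rel_of_mem (ArtRel.braid _ _ (simple_braid_of_three (cs0 n) (A_eq_three_iff.2 h)))
    | comm i j h =>
      simp only [map_mul, map_inv, FreeGroup.lift_apply_of, Sum.elim_inl]
      apply mul_inv_eq_one.2
      simp only [← map_mul]
      congr 1
      exact rel_of_mem (ArtRel.comm _ _ (simple_comm_of_two (cs0 n) (A_eq_two_iff.2 h)))
    | vsq i =>
      simp only [map_mul, FreeGroup.lift_apply_of, Sum.elim_inr]
      rw [← map_mul, (cs0 n).simple_mul_simple_self, map_one]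
    | vbraid i j h =>
      simp only [map_mul, map_inv, FreeGroup.lift_apply_of, Sum.elim_inr]
      apply mul_inv_eq_one.2
      simp only [← map_mul]
      rw [simple_braid_of_three (cs0 n) (A_eq_three_iff.2 h)]
    | vcomm i j h =>
      simp only [map_mul, map_inv, FreeGroup.lift_apply_of, Sum.elim_inr]
      apply mul_inv_eq_one.2
      simp only [← map_mul]
      rw [simple_comm_of_two (cs0 n) (A_eq_two_iff.2 h)]
    | mcomm i j h =>
      simp only [map_mul, map_inv, FreeGroup.lift_apply_of, Sum.elim_inl, Sum.elim_inr]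
      apply mul_inv_eq_one.2
      refine (hfix _ i i ?_).symm
      rw [(cs0 n).inv_simple, ← simple_comm_of_two (cs0 n) (A_eq_two_iff.2 h),
        (cs0 n).simple_mul_simple_cancel_right]
    | mixed i j h =>
      simp only [map_mul, map_inv, FreeGroup.lift_apply_of, Sum.elim_inl, Sum.elim_inr]
      apply mul_inv_eq_one.2
      have h1 := hfix ((cs0 n).simple i * (cs0 n).simple j) i j (by
        rw [mul_inv_rev, (cs0 n).inv_simple, (cs0 n).inv_simple,
          simple_braid_of_three (cs0 n) (A_eq_three_iff.2 h)]
        simp only [mul_assoc, (cs0 n).simple_mul_simple_cancel_left,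
          (cs0 n).simple_mul_simple_self, mul_one])
      rw [map_mul] at h1
      rw [h1, mul_assoc]
    | virtualisation i =>
      simp only [map_mul, map_inv, FreeGroup.lift_apply_of, Sum.elim_inl, Sum.elim_inr]
      apply mul_inv_eq_one.2
      have h1 := hfix ((cs0 n).simple i) i i (by
        rw [(cs0 n).inv_simple, (cs0 n).simple_mul_simple_cancel_right])
      rw [h1, mul_assoc, ← map_mul, (cs0 n).simple_mul_simple_self, map_one, mul_one])

theorem Psi_inl {n : ℕ} (i : Fin n) : Psi n (PresentedGroup.of (Sum.inl i)) =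
    SemidirectProduct.inl (PresentedGroup.of (iota n i)) :=
  PresentedGroup.toGroup.of _

theorem Psi_incl {n : ℕ} (a : BraidGroup n) :
    Psi n (incl n a) = SemidirectProduct.inl (emb n a) := by
  have h : (Psi n).comp (incl n) = (SemidirectProduct.inl : Art n →* SD n).comp (emb n) := by
    apply PresentedGroup.ext
    intro i
    rw [MonoidHom.comp_apply, MonoidHom.comp_apply, incl_of, Psi_inl, emb_of]
  exact DFunLike.congr_fun h a

end Pool.Agent.Lib.MP_31c440_gt
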