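import Mathlib
import Pool.Agent.Lib.MP_31c440_gt.TypeA

/-!
# Classical braids which are conjugate modulo virtualisation are conjugate
-/

namespace Pool.Agent.Lib.MP_31c440_gt

/-- The value of a signed word. -/
def wv {I G : Type*} [Group G] (f : I → G) (L : List (I × Bool)) : G :=
  (L.map fun x => cond x.2 (f x.1) (f x.1)⁻¹).prod

theorem wv_nil {I G : Type*} [Group G] (f : I → G) : wv f [] = 1 := rfl

theorem wv_cons {I G : Type*} [Group G] (f : I → G) (x : I × Bool) (L : List (I × Bool)) :
    wv f (x :: L) = cond x.2 (f x.1) (f x.1)⁻¹ * wv f L := by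
  simp [wv]

theorem map_wv {I G H : Type*} [Group G] [Group H] (φ : G →* H) (f : I → G)
    (L : List (I × Bool)) : φ (wv f L) = wv (fun i => φ (f i)) L := by
  induction L with
  | nil => simp [wv_nil]
  | cons x L ih =>
    rw [wv_cons, wv_cons, map_mul, ih]
    congr 1
    rcases x with ⟨i, b⟩
    cases b <;> simp

/-- The generators of the braid group. -/
abbrev sg {n : ℕ} (i : Fin n) : BraidGroup n := PresentedGroup.of i

theorem exists_wv {n : ℕ} (a : BraidGroup n) : ∃ L, wv sg L = a := by
  obtain ⟨x, rfl⟩ := PresentedGroup.mk_surjective _ a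
  refine ⟨x.toWord, ?_⟩
  have h : PresentedGroup.mk {r | BraidRel n r} = FreeGroup.lift (sg (n := n)) := by
    apply FreeGroup.ext_hom
    intro i
    rw [FreeGroup.lift_apply_of]
    rfl
  rw [h]
  conv_rhs => rw [← FreeGroup.mk_toWord (x := x)]
  rw [FreeGroup.lift_mk]
  rfl

theorem letter_loop {n : ℕ} {s : T n} {v : W1 n}
    (hv : MinRep (cs1 n) (Set.range (iota n)) v) {j : Fin n}
    (hj : (cs1 n).simple s * v = v * (cs1 n).simple (iota n j)) (b : Bool) (g : BraidGroup n) :
    Phi n (cond b (PresentedGroup.of s) (PresentedGroup.of s)⁻¹) (⟨v, hv⟩, g) =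
      (⟨v, hv⟩, cond b (sg j) (sg j)⁻¹ * g) := by
  cases b
  · simp only [cond_false, map_inv, Phi_of]
    exact stepInv_loop (good n) hv hj g
  · simp only [cond_true, Phi_of]
    exact step_loop (good n) hv hj g

theorem letter_move {n : ℕ} {s : T n} {v : W1 n}
    (hv : MinRep (cs1 n) (Set.range (iota n)) v) (hL : ¬ Loop (cs1 n) (iota n) s v)
    (b : Bool) (g : BraidGroup n) :
    Phi n (cond b (PresentedGroup.of s) (PresentedGroup.of s)⁻¹) (⟨v, hv⟩, g) =
      (⟨(cs1 n).simple s * v, move_minRep MT_le hv hL⟩, g) := by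
  cases b
  · simp only [cond_false, map_inv, Phi_of]
    exact stepInv_move MT_le hv hL g
  · simp only [cond_true, Phi_of]
    exact step_move MT_le hv hL g

open Classical in
/-- The label of the conjugated generator `i` at the state `v` (junk value `i` if there is none). -/
noncomputable def psi {n : ℕ} (p : W0 n) (v : W1 n) (i : Fin n) : Fin n :=
  if h : Loop (cs1 n) (iota n) (conjT p (iota n i)) v then h.choose else i

theorem psi_spec {n : ℕ} {p : W0 n} {v : W1 n} {i : Fin n}
    (h : Loop (cs1 n) (iota n) (conjT p (iota n i)) v) :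
    (cs1 n).simple (conjT p (iota n i)) * v = v * (cs1 n).simple (iota n (psi p v i)) := by
  unfold psi
  rw [dif_pos h]
  exact h.choose_spec

/-- The projection lemma. -/
theorem proj {n : ℕ} (p : W0 n) (v : State (cs1 n) (iota n)) (L : List (Fin n × Bool)) :
    ∃ (v' : State (cs1 n) (iota n)) (L' : List (Fin n × Bool)),
      (∀ g : BraidGroup n,
        Phi n (wv (fun i => PresentedGroup.of (conjT p (iota n i))) L) (v, g) =
          (v', wv sg L' * g)) ∧
      (L'.length < L.length ∨ (v' = v ∧ L' = L.map (fun x => (psi p v.1 x.1, x.2)) ∧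
        ∀ x ∈ L, (cs1 n).simple (conjT p (iota n x.1)) * v.1 =
          v.1 * (cs1 n).simple (iota n (psi p v.1 x.1)))) := by
  induction L with
  | nil =>
    refine ⟨v, [], ?_, Or.inr ⟨rfl, rfl, by simp⟩⟩
    intro g
    rw [wv_nil, wv_nil, map_one, one_mul]; rfl
  | cons x L ih =>
    obtain ⟨v', L', h1, h2⟩ := ih
    obtain ⟨i, b⟩ := x
    have hstep : ∀ g : BraidGroup n,
        Phi n (wv (fun i => PresentedGroup.of (conjT p (iota n i))) ((i, b) :: L)) (v, g) =
          Phi n (cond b (PresentedGroup.of (conjT p (iota n i)))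
            (PresentedGroup.of (conjT p (iota n i)))⁻¹) (v', wv sg L' * g) := by
      intro g
      rw [wv_cons, map_mul, Equiv.Perm.mul_apply, h1]
    by_cases hL : Loop (cs1 n) (iota n) (conjT p (iota n i)) v'.1
    · have hj := psi_spec hL
      refine ⟨v', (psi p v'.1 i, b) :: L', ?_, ?_⟩
      · intro g
        rw [hstep, wv_cons, mul_assoc]
        exact letter_loop v'.2 hj b _
      · rcases h2 with h2 | ⟨h2, h3, h4⟩
        · left
          simp only [List.length_cons]
          omega
        · right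
          subst h2
          refine ⟨rfl, by rw [List.map_cons, h3], ?_⟩
          intro y hy
          rcases List.mem_cons.1 hy with h5 | h5
          · rw [h5]; exact hj
          · exact h4 y h5
    · refine ⟨⟨_, move_minRep MT_le v'.2 hL⟩, L', ?_, ?_⟩
      · intro g
        rw [hstep]
        exact letter_move v'.2 hL b _
      · left
        rcases h2 with h2 | ⟨h2, h3, h4⟩
        · simp only [List.length_cons]; omega
        · rw [h3, List.length_map, List.length_cons]; omega

theorem emb_wv {n : ℕ} (L : List (Fin n × Bool)) :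
    emb n (wv sg L) = wv (fun i => PresentedGroup.of (iota n i)) L := by
  rw [map_wv]
  simp only [emb_of]

theorem cmap_emb_wv {n : ℕ} (p : W0 n) (L : List (Fin n × Bool)) :
    cmap p (emb n (wv sg L)) = wv (fun i => PresentedGroup.of (conjT p (iota n i))) L := by
  rw [emb_wv, map_wv]
  simp only [cmap_of]

/-- The Artin group action commutes with right multiplication. -/
theorem Phi_right {n : ℕ} (a : Art n) (v : State (cs1 n) (iota n)) (g h : BraidGroup n) :
    Phi n a (v, g * h) = ((Phi n a (v, g)).1, (Phi n a (v, g)).2 * h) := by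
  -- the set of `a` for which this holds for all `v g h` is a subgroup containing the generators
  let H : Subgroup (Art n) :=
    { carrier := {a | ∀ (v : State (cs1 n) (iota n)) (g h : BraidGroup n),
        Phi n a (v, g * h) = ((Phi n a (v, g)).1, (Phi n a (v, g)).2 * h)}
      mul_mem' := by
        intro a b ha hb v g h
        rw [map_mul, Equiv.Perm.mul_apply, Equiv.Perm.mul_apply, hb v g h]
        have h1 := ha (Phi n b (v, g)).1 (Phi n b (v, g)).2 h
        rw [h1]
      one_mem' := by
        intro v g h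
        rw [map_one]; rfl
      inv_mem' := by
        intro a ha v g h
        rw [map_inv]
        have hinv : ∀ q, Phi n a ((Phi n a)⁻¹ q) = q := fun q => (Phi n a).apply_symm_apply q
        apply (Phi n a).injective
        rw [hinv]
        have h1 := ha ((Phi n a)⁻¹ (v, g)).1 ((Phi n a)⁻¹ (v, g)).2 h
        rw [h1]
        have h2 : Phi n a (((Phi n a)⁻¹ (v, g)).1, ((Phi n a)⁻¹ (v, g)).2) = (v, g) := by
          rw [Prod.mk.eta, hinv]
        rw [h2] }
  have h1 : a ∈ H := by
    refine PresentedGroup.generated_by _ H ?_ a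
    intro t v g h
    rw [Phi_of]
    exact step_right (good n) t v g h
  exact h1 v g h

/-- The base state. -/
noncomputable def base (n : ℕ) : State (cs1 n) (iota n) := ⟨1, one_minRep _ _⟩

/-- Classical braids fix the base state. -/
theorem Phi_emb {n : ℕ} (b g : BraidGroup n) : Phi n (emb n b) (base n, g) = (base n, b * g) := by
  obtain ⟨L, rfl⟩ := exists_wv b
  rw [emb_wv]
  induction L with
  | nil => rw [wv_nil, wv_nil, map_one, one_mul]; rfl
  | cons x L ih =>
    rw [wv_cons, wv_cons, map_mul, Equiv.Perm.mul_apply, ih, mul_assoc]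
    exact letter_loop (one_minRep _ _) (by rw [mul_one, one_mul]) x.2 _

/-- Conjugation by the Matsumoto section along a word. -/
theorem wv_conj {n : ℕ} (u : W0 n) (L : List (Fin n × Bool)) (ψ : Fin n → Fin n)
    (h : ∀ x ∈ L, u * (cs0 n).simple x.1 = (cs0 n).simple (ψ x.1) * u) :
    IsConj (wv sg L) (wv sg (L.map fun x => (ψ x.1, x.2)) : BraidGroup n) := by
  set r : BraidGroup n := matSec (cs0 n) (sg (n := n)) u with hr
  have h1 : ∀ x ∈ L, r * cond x.2 (sg x.1) (sg x.1)⁻¹ =
      cond x.2 (sg (ψ x.1)) (sg (ψ x.1))⁻¹ * r := by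
    intro x hx
    have h2 := matSec_conj (cs0 n) (A_le n) (A_ne_zero n) (simple0_injective n) (braidFamily n)
      u x.1 (ψ x.1) (h x hx)
    change r * sg x.1 = sg (ψ x.1) * r at h2
    rcases x with ⟨i, b⟩
    cases b
    · simp only [cond_false] at h2 ⊢
      rw [eq_inv_mul_iff_mul_eq, ← mul_assoc, ← h2, mul_assoc, mul_inv_cancel, mul_one]
    · exact h2
  have h3 : r * wv sg L = wv sg (L.map fun x => (ψ x.1, x.2)) * r := by
    clear hr h
    induction L with
    | nil => simp [wv_nil]
    | cons x L ih =>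
      rw [List.map_cons, wv_cons, wv_cons, ← mul_assoc, h1 x (by simp), mul_assoc,
        ih (fun y hy => h1 y (by simp [hy])), mul_assoc]
  exact isConj_iff.2 ⟨r, by rw [h3, mul_inv_cancel_right]⟩

/-- Key step. -/
theorem key {n : ℕ} (L : List (Fin n × Bool)) (b : BraidGroup n)
    (h : IsConj (incl n (wv sg L)) (incl n b)) :
    ∃ L' : List (Fin n × Bool), IsConj (wv sg L') b ∧
      (L'.length < L.length ∨ IsConj (wv sg L : BraidGroup n) (wv sg L')) := by
  -- conjugacy in the semidirect product
  obtain ⟨c, hc⟩ := isConj_iff.1 h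
  have h1 : Psi n c * Psi n (incl n (wv sg L)) * (Psi n c)⁻¹ = Psi n (incl n b) := by
    rw [← hc]; simp
  rw [Psi_incl, Psi_incl] at h1
  obtain ⟨x, p, hcx⟩ : ∃ (x : Art n) (p : W0 n),
      Psi n c = SemidirectProduct.inl x * SemidirectProduct.inr p :=
    ⟨(Psi n c).left, (Psi n c).right, (SemidirectProduct.inl_left_mul_inr_right _).symm⟩
  rw [hcx] at h1
  have h2 : x * cmap p (emb n (wv sg L)) * x⁻¹ = emb n b := by
    apply (SemidirectProduct.inl_injective (φ := actA n))
    rw [← h1, mul_assoc (SemidirectProduct.inl x) (SemidirectProduct.inr p), inr_mul_inl,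
      mul_inv_rev, map_mul, map_mul, map_inv]
    simp only [mul_assoc, mul_inv_cancel_left]
  -- states
  obtain ⟨v, y, hvy⟩ : ∃ (v : State (cs1 n) (iota n)) (y : BraidGroup n),
      Phi n x⁻¹ (base n, 1) = (v, y) := ⟨_, _, rfl⟩
  obtain ⟨v', L', h3, h4⟩ := proj p v L
  have h5 : Phi n (cmap p (emb n (wv sg L)) * x⁻¹) (base n, 1) = (v', wv sg L' * y) := by
    rw [map_mul, Equiv.Perm.mul_apply, hvy, cmap_emb_wv, h3]
  have h6 : cmap p (emb n (wv sg L)) * x⁻¹ = x⁻¹ * emb n b := by
    rw [← h2]; group
  have h7 : Phi n (x⁻¹ * emb n b) (base n, 1) = (v, y * b) := by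
    rw [map_mul, Equiv.Perm.mul_apply, Phi_emb, mul_one]
    have h8 := Phi_right x⁻¹ (base n) 1 b
    rw [one_mul, hvy] at h8
    exact h8
  rw [h6, h7] at h5
  have h8 : v = v' := congrArg Prod.fst h5
  have h9 : y * b = wv sg L' * y := congrArg Prod.snd h5
  refine ⟨L', isConj_iff.2 ⟨y⁻¹, ?_⟩, ?_⟩
  · rw [inv_inv, mul_assoc, ← h9, inv_mul_cancel_left]
  · rcases h4 with h4 | ⟨-, h10, h11⟩
    · left; exact h4
    · right
      rw [h10]
      apply wv_conj ((rho n v.1)⁻¹ * p)
      intro z hz
      have h12 := congrArg (rho n) (h11 z hz)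
      rw [map_mul, map_mul, rho_simple, rho_simple] at h12
      change p * (cs0 n).simple z.1 * p⁻¹ * rho n v.1 =
        rho n v.1 * (cs0 n).simple (psi p v.1 z.1) at h12
      have h13 : p * (cs0 n).simple z.1 = rho n v.1 * (cs0 n).simple (psi p v.1 z.1) *
          ((rho n v.1)⁻¹ * p) := by
        rw [← h12]; group
      rw [mul_assoc, h13]
      simp only [mul_assoc, inv_mul_cancel_left]

/-- The minimal length of a signed word which is conjugate to `a`. -/
theorem exists_min {n : ℕ} (a : BraidGroup n) :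
    ∃ L : List (Fin n × Bool), IsConj (wv sg L) a ∧
      ∀ L' : List (Fin n × Bool), IsConj (wv sg L') a → L.length ≤ L'.length := by
  classical
  have h : ∃ k, ∃ L : List (Fin n × Bool), L.length = k ∧ IsConj (wv sg L) a := by
    obtain ⟨L, hL⟩ := exists_wv a
    exact ⟨_, L, rfl, by rw [hL]⟩
  obtain ⟨L, h1, h2⟩ := Nat.find_spec h
  refine ⟨L, h2, ?_⟩
  intro L' h3
  rw [h1]
  exact Nat.find_min' h ⟨L', rfl, h3⟩

/-- Two classical braids which are conjugate in the virtual braid group modulo virtualisation are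
conjugate in the braid group. -/
theorem conj_of_conj {n : ℕ} (a b : BraidGroup n) (h : IsConj (incl n a) (incl n b)) :
    IsConj a b := by
  obtain ⟨La, ha1, ha2⟩ := exists_min a
  obtain ⟨Lb, hb1, hb2⟩ := exists_min b
  have e1 : IsConj (incl n (wv sg La)) (incl n b) :=
    ((incl n).map_isConj ha1).trans h
  have e2 : IsConj (incl n (wv sg Lb)) (incl n a) :=
    ((incl n).map_isConj hb1).trans h.symm
  obtain ⟨L1, h1, h2⟩ := key La b e1
  obtain ⟨L2, h3, h4⟩ := key Lb a e2
  have l1 := hb2 L1 h1
  have l2 := ha2 L2 h3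
  rcases h2 with h2 | h2
  · rcases h4 with h4 | h4
    · omega
    · exact (h3.symm.trans (h4.symm)).trans hb1
  · exact (ha1.symm.trans h2).trans h1

theorem incl_injective (n : ℕ) : Function.Injective (incl n) := by
  rw [injective_iff_map_eq_one]
  intro a ha
  have h : IsConj (incl n a) (incl n 1) := by rw [ha, map_one]
  have h1 := conj_of_conj a 1 h
  exact isConj_one_left.1 h1

end Pool.Agent.Lib.MP_31c440_gt
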